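import Pool.Agent.Helper82.AP.ALG
import Pool.Agent.Helper8.AP.K0b
import Pool.Agent.Helper7.GPC.Div

/-!
# Project A' (MP_8958e8), block GB: pointwise bounds, from `GG_bd`
-/

open MeasureTheory Set Filter Topology
open Pool.Agent.Helper69.FF Pool.Agent.Helper57.KP
open scoped ContDiff

set_option autoImplicit false

namespace Pool.Agent.AP

private theorem phi_ratio {b : ℕ} (hb : Squarefree b) : (b : ℝ) / Nat.totient b ≤ GG 1 b := by
  have hb0 : b ≠ 0 := hb.ne_zero
  have h1 : ∑ d ∈ b.divisors, (1 : ℝ) / Nat.totient d = (b : ℝ) / Nat.totient b := by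
    have h2 : ∑ d ∈ b.divisors, (1 : ℝ) / Nat.totient d = ∑ d ∈ b.divisors, (1 : ℝ) / Nat.totient (b / d) :=
      (Nat.sum_div_divisors b (fun d => (1 : ℝ) / Nat.totient d)).symm
    rw [h2]
    have h3 : ((∑ d ∈ b.divisors, Nat.totient d : ℕ) : ℝ) = (b : ℝ) := by rw [Nat.sum_totient]
    rw [← h3, Nat.cast_sum, Finset.sum_div]
    refine Finset.sum_congr rfl fun d hd => ?_
    have hdb := Nat.dvd_of_mem_divisors hd
    obtain ⟨e, rfl⟩ := hdb
    have hd0 : 0 < d := Nat.pos_of_ne_zero (left_ne_zero_of_mul hb0)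
    have he0 : 0 < e := Nat.pos_of_ne_zero (right_ne_zero_of_mul hb0)
    have hco : Nat.Coprime d e := Nat.coprime_of_squarefree_mul hb
    rw [Nat.mul_div_cancel_left e hd0, Nat.totient_mul hco, Nat.cast_mul]
    have h4 : (Nat.totient d : ℝ) ≠ 0 := by exact_mod_cast (Nat.totient_pos.mpr hd0).ne'
    have h5 : (Nat.totient e : ℝ) ≠ 0 := by exact_mod_cast (Nat.totient_pos.mpr he0).ne'
    field_simp
  rw [← h1]
  unfold GG
  refine Finset.sum_le_sum_of_subset_of_nonneg ?_ fun d _ _ => by positivity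
  intro d hd
  have hdb := Nat.dvd_of_mem_divisors hd
  rw [Finset.mem_filter, Finset.mem_Icc]
  exact ⟨⟨Nat.pos_of_mem_divisors hd, Nat.le_of_dvd (Nat.pos_of_ne_zero hb0) hdb⟩, hb.squarefree_of_dvd hdb, Nat.coprime_one_right d⟩

private theorem GG_mono {q R R' : ℕ} (h : R ≤ R') : GG q R ≤ GG q R' := by
  unfold GG
  refine Finset.sum_le_sum_of_subset_of_nonneg ?_ fun d _ _ => by positivity
  exact Finset.filter_subset_filter _ (Finset.Icc_subset_Icc_right h)

theorem xi_bd_of (hG : Stmt_GG_bd) : Stmt_xi_bd := by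
  obtain ⟨C, hC, h⟩ := hG
  refine ⟨(1 + C) ^ 2, by positivity, fun B b hb hbB => ?_⟩
  have hB : 1 ≤ B := hb.trans hbB
  have hlB : 0 ≤ Real.log B := Real.log_nonneg (by exact_mod_cast hB)
  have hbnd : GG 1 B ≤ (1 + C) * (1 + Real.log B) := by
    have := (h B hB).2
    nlinarith
  have hGn : ∀ q R, 0 ≤ GG q R := K0bAux.GG_nonneg
  by_cases hs : Squarefree b
  · have h1 : |(b : ℝ) * mf b| ≤ GG 1 B := by
      rw [abs_mul, abs_of_nonneg (Nat.cast_nonneg b), K0bAux.abs_mf hs, mul_one_div]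
      exact (phi_ratio hs).trans (GG_mono hbB)
    have h2 : |GG b (B / b)| ≤ GG 1 B := by
      rw [abs_of_nonneg (hGn _ _)]
      exact (GG_le b (B / b)).trans (GG_mono (Nat.div_le_self B b))
    have h3 : 0 ≤ GG 1 B := hGn _ _
    unfold xi
    rw [abs_mul]
    calc |(b : ℝ) * mf b| * |GG b (B / b)| ≤ GG 1 B * GG 1 B := mul_le_mul h1 h2 (abs_nonneg _) h3
      _ ≤ ((1 + C) * (1 + Real.log B)) * ((1 + C) * (1 + Real.log B)) := mul_le_mul hbnd hbnd h3 (by positivity)
      _ = (1 + C) ^ 2 * (1 + Real.log B) ^ 2 := by ring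
  · have h1 : mf b = 0 := by
      unfold mf
      rw [ArithmeticFunction.moebius_eq_zero_of_not_squarefree hs]
      simp
    unfold xi
    rw [h1]
    simp only [mul_zero, zero_mul, abs_zero]
    positivity

private theorem logp {K ε : ℝ} (hε : 0 < ε) (m : ℕ) : ∀ᶠ T : ℝ in atTop, K * (1 + Real.log T) ^ m ≤ T ^ ε := by
  have h0 : Tendsto (fun T : ℝ => (1 + Real.log T) ^ m / T ^ (ε)) atTop (𝓝 0) := by
    have h1 : (fun T : ℝ => (1 + Real.log T) ^ m) =o[atTop] fun T : ℝ => T ^ ε := by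
      have h2 : (fun T : ℝ => 1 + Real.log T) =o[atTop] fun T : ℝ => T ^ (ε / (m + 1)) := by
        refine Asymptotics.IsLittleO.add ?_ (isLittleO_log_rpow_atTop (by positivity))
        exact (Asymptotics.isLittleO_const_left.2 (Or.inr (tendsto_norm_atTop_atTop.comp (tendsto_rpow_atTop (by positivity)))))
      rcases Nat.eq_zero_or_pos m with hm | hm
      · subst hm
        simp only [pow_zero]
        exact (Asymptotics.isLittleO_const_left.2 (Or.inr (tendsto_norm_atTop_atTop.comp (tendsto_rpow_atTop hε))))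
      · have h3 := h2.pow hm
        refine h3.trans_isBigO ?_
        refine Asymptotics.IsBigO.of_bound 1 ?_
        filter_upwards [eventually_ge_atTop (1:ℝ)] with T hT
        rw [one_mul, Real.norm_of_nonneg (by positivity), Real.norm_of_nonneg (by positivity), ← Real.rpow_natCast, ← Real.rpow_mul (by linarith)]
        refine Real.rpow_le_rpow_of_exponent_le hT ?_
        have hm1 : (0:ℝ) < (m:ℝ) + 1 := by positivity
        rw [div_mul_eq_mul_div, div_le_iff₀ hm1]
        nlinarith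
    exact h1.tendsto_div_nhds_zero
  have h1 : Tendsto (fun T : ℝ => K * ((1 + Real.log T) ^ m / T ^ ε)) atTop (𝓝 (K * 0)) := h0.const_mul K
  rw [mul_zero] at h1
  filter_upwards [h1.eventually_le_const (by norm_num : (0:ℝ) < 1), eventually_gt_atTop (0:ℝ)] with T h2 h3
  have h4 : 0 < T ^ ε := Real.rpow_pos_of_pos h3 _
  rw [← mul_div_assoc, div_le_one h4] at h2
  exact h2

theorem lamR_bd_of (hG : Stmt_GG_bd) : Stmt_lamR_bd := by
  intro ε hε
  obtain ⟨C, hC, h⟩ := xi_bd_of hG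
  obtain ⟨C₂, hC₂, hdiv⟩ := Pool.Agent.Helper7.GPC.card_divisors_le (ε := ε / 4) (by positivity)
  filter_upwards [logp (K := C₂ * (C * 4)) (ε := ε / 2) (by positivity) 2, eventually_gt_atTop (1:ℝ)] with T hlog hT n hn hnT R hR
  have hT0 : 0 < T := by linarith
  have hL : 0 < Real.log T := Real.log_pos hT
  rw [lamR_eq]
  have hna : n.natAbs ≠ 0 := Int.natAbs_ne_zero.mpr hn
  have h1 : (Finset.Icc 1 R).filter (fun b : ℕ => (b : ℤ) ∣ n) ⊆ n.natAbs.divisors := by
    intro b hb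
    rw [Finset.mem_filter] at hb
    rw [Nat.mem_divisors]
    exact ⟨Int.natCast_dvd.mp hb.2, hna⟩
  have h2 : ∀ b ∈ (Finset.Icc 1 R).filter (fun b : ℕ => (b : ℤ) ∣ n), |xi R b| ≤ C * 4 * (1 + Real.log T) ^ 2 := by
    intro b hb
    rw [Finset.mem_filter, Finset.mem_Icc] at hb
    have h3 := h R b hb.1.1 hb.1.2
    have hR1 : 1 ≤ R := hb.1.1.trans hb.1.2
    have hR1' : (1:ℝ) ≤ R := by exact_mod_cast hR1
    have h4 : Real.log R ≤ 2 * Real.log T := by
      have := Real.log_le_log (by linarith) hR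
      rw [Real.log_pow] at this
      exact_mod_cast this
    have h5 : 0 ≤ Real.log R := Real.log_nonneg hR1'
    refine h3.trans ?_
    have h6 : (1 + Real.log R) ^ 2 ≤ (2 * (1 + Real.log T)) ^ 2 := pow_le_pow_left₀ (by linarith) (by linarith) 2
    nlinarith
  have h3 : ((Finset.Icc 1 R).filter (fun b : ℕ => (b : ℤ) ∣ n)).card ≤ n.natAbs.divisors.card := Finset.card_le_card h1
  have h4 : (n.natAbs.divisors.card : ℝ) ≤ C₂ * T ^ (ε / 2) := by
    refine (hdiv _ hna).trans ?_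
    refine mul_le_mul_of_nonneg_left ?_ (by linarith)
    have h5 : ((n.natAbs : ℕ) : ℝ) = |(n : ℝ)| := by
      rw [Nat.cast_natAbs, Int.cast_abs]
    rw [h5]
    calc |(n : ℝ)| ^ (ε / 4) ≤ (T ^ 2) ^ (ε / 4) := Real.rpow_le_rpow (abs_nonneg _) hnT (by positivity)
      _ = T ^ (ε / 2) := by
          rw [← Real.rpow_natCast, ← Real.rpow_mul hT0.le]
          congr 1
          push_cast
          ring
  calc |∑ b ∈ (Finset.Icc 1 R).filter (fun b : ℕ => (b : ℤ) ∣ n), xi R b|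
      ≤ ∑ b ∈ (Finset.Icc 1 R).filter (fun b : ℕ => (b : ℤ) ∣ n), |xi R b| := Finset.abs_sum_le_sum_abs _ _
    _ ≤ ∑ _b ∈ (Finset.Icc 1 R).filter (fun b : ℕ => (b : ℤ) ∣ n), C * 4 * (1 + Real.log T) ^ 2 := Finset.sum_le_sum h2
    _ = ((Finset.Icc 1 R).filter (fun b : ℕ => (b : ℤ) ∣ n)).card * (C * 4 * (1 + Real.log T) ^ 2) := by rw [Finset.sum_const, nsmul_eq_mul]
    _ ≤ (C₂ * T ^ (ε / 2)) * (C * 4 * (1 + Real.log T) ^ 2) := by
        refine mul_le_mul_of_nonneg_right ?_ (by positivity)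
        have : (((Finset.Icc 1 R).filter (fun b : ℕ => (b : ℤ) ∣ n)).card : ℝ) ≤ n.natAbs.divisors.card := by exact_mod_cast h3
        linarith
    _ = (C₂ * (C * 4) * (1 + Real.log T) ^ 2) * T ^ (ε / 2) := by ring
    _ ≤ T ^ (ε / 2) * T ^ (ε / 2) := mul_le_mul_of_nonneg_right hlog (by positivity)
    _ = T ^ ε := by
        rw [← Real.rpow_add hT0]
        congr 1
        ring

theorem b1_bd_of (hG : Stmt_GG_bd) : Stmt_b1_bd := by
  intro κ2 e ε h2 h2' he hε
  have hbig : ∀ᶠ T : ℝ in atTop, 2 * T ^ (ε / 2) ≤ T ^ ε := by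
    have h1 : Tendsto (fun T : ℝ => T ^ (ε / 2)) atTop atTop := tendsto_rpow_atTop (by linarith)
    filter_upwards [h1.eventually_ge_atTop 2, eventually_gt_atTop (0:ℝ)] with T h2 h3
    have h4 : T ^ ε = T ^ (ε / 2) * T ^ (ε / 2) := by
      rw [← Real.rpow_add h3]
      congr 1
      ring
    rw [h4]
    exact mul_le_mul_of_nonneg_right h2 (Real.rpow_nonneg h3.le _)
  filter_upwards [lamR_bd_of hG (ε := ε / 2) (by positivity), hbig, eventually_gt_atTop (1:ℝ)] with T h3 h4 hT n hn hnT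
  have hT0 : 0 < T := by linarith
  have hfl : ∀ y : ℝ, y ≤ 1 → ((⌊T ^ y⌋₊ : ℕ) : ℝ) ≤ T ^ 2 := by
    intro y hy
    calc ((⌊T ^ y⌋₊ : ℕ) : ℝ) ≤ T ^ y := Nat.floor_le (by positivity)
      _ ≤ T ^ (2:ℝ) := Real.rpow_le_rpow_of_exponent_le hT.le (by linarith)
      _ = T ^ 2 := by rw [Real.rpow_two]
  unfold b1
  have h5 := h3 n hn hnT ⌊T ^ (1 / 2 - e)⌋₊ (hfl _ (by linarith))
  have h6 := h3 n hn hnT ⌊T ^ κ2⌋₊ (hfl _ h2')
  calc |lamR ⌊T ^ (1 / 2 - e)⌋₊ n - lamR ⌊T ^ κ2⌋₊ n| ≤ |lamR ⌊T ^ (1 / 2 - e)⌋₊ n| + |lamR ⌊T ^ κ2⌋₊ n| := abs_sub _ _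
    _ ≤ 2 * T ^ (ε / 2) := by linarith
    _ ≤ T ^ ε := h4

/-- `ω_I(n)` is at most twice the number of primes dividing `n` -/
private theorem omI_bd {I : Finset ℕ} (hp : ∀ p ∈ I, p.Prime) {n : ℤ} (hn : n ≠ 0) {T : ℝ} (hT : 1 < T) (hnT : |(n : ℝ)| ≤ T ^ 2) :
    0 ≤ omI I n ∧ omI I n ≤ 8 * (1 + Real.log T) := by
  have hL : 0 < Real.log T := Real.log_pos hT
  have h2 : ∀ p ∈ I, (0:ℝ) ≤ (p : ℝ) / ((p : ℝ) - 1) ∧ (p : ℝ) / ((p : ℝ) - 1) ≤ 2 := by
    intro p hpI
    have h3 : (2:ℝ) ≤ p := by exact_mod_cast (hp p hpI).two_le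
    refine ⟨div_nonneg (by linarith) (by linarith), ?_⟩
    rw [div_le_iff₀ (by linarith)]
    linarith
  refine ⟨?_, ?_⟩
  · unfold omI
    refine Finset.sum_nonneg fun p hpI => ?_
    split_ifs
    · exact (h2 p hpI).1
    · exact le_rfl
  · unfold omI
    rw [← Finset.sum_filter]
    have h4 : I.filter (fun p : ℕ => (p : ℤ) ∣ n) ⊆ n.natAbs.primeFactors := by
      intro p hpI
      rw [Finset.mem_filter] at hpI
      rw [Nat.mem_primeFactors]
      exact ⟨hp p hpI.1, Int.natCast_dvd.mp hpI.2, Int.natAbs_ne_zero.mpr hn⟩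
    have h5 : n.natAbs.primeFactors.card ≤ Nat.log 2 n.natAbs := by
      have hna : n.natAbs ≠ 0 := Int.natAbs_ne_zero.mpr hn
      refine Nat.le_log_of_pow_le (by norm_num) ?_
      calc 2 ^ n.natAbs.primeFactors.card = ∏ _p ∈ n.natAbs.primeFactors, 2 := by simp
        _ ≤ ∏ p ∈ n.natAbs.primeFactors, p := Finset.prod_le_prod' fun p hp => (Nat.prime_of_mem_primeFactors hp).two_le
        _ ≤ n.natAbs := Nat.le_of_dvd (Nat.pos_of_ne_zero hna) (Nat.prod_primeFactors_dvd _)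
    have h6 : (n.natAbs.primeFactors.card : ℝ) ≤ 4 * (1 + Real.log T) := by
      have hna : 0 < n.natAbs := Int.natAbs_pos.mpr hn
      have h7 : ((Nat.log 2 n.natAbs : ℕ) : ℝ) ≤ Real.log (n.natAbs : ℝ) / Real.log 2 := by
        rw [le_div_iff₀ (Real.log_pos (by norm_num))]
        have h8 : ((2 ^ Nat.log 2 n.natAbs : ℕ) : ℝ) ≤ (n.natAbs : ℝ) := by exact_mod_cast Nat.pow_log_le_self 2 hna.ne'
        have h9 := Real.log_le_log (by positivity) h8
        rw [Nat.cast_pow, Real.log_pow] at h9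
        exact_mod_cast h9
      have h10 : ((n.natAbs : ℕ) : ℝ) = |(n : ℝ)| := by
        rw [Nat.cast_natAbs, Int.cast_abs]
      have h11 : Real.log (n.natAbs : ℝ) ≤ 2 * Real.log T := by
        rw [h10]
        have : Real.log |(n : ℝ)| ≤ Real.log (T ^ 2) := Real.log_le_log (by
          have : (n : ℝ) ≠ 0 := by exact_mod_cast hn
          positivity) hnT
        rw [Real.log_pow] at this
        exact_mod_cast this
      have h12 : (1:ℝ) / 2 ≤ Real.log 2 := by
        have := Real.log_two_gt_d9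
        linarith
      have h13 : Real.log (n.natAbs : ℝ) / Real.log 2 ≤ 4 * Real.log T := by
        rw [div_le_iff₀ (by linarith)]
        nlinarith
      have h14 : (n.natAbs.primeFactors.card : ℝ) ≤ ((Nat.log 2 n.natAbs : ℕ) : ℝ) := by exact_mod_cast h5
      linarith
    calc ∑ p ∈ I.filter (fun p : ℕ => (p : ℤ) ∣ n), (p : ℝ) / ((p : ℝ) - 1)
        ≤ ∑ _p ∈ I.filter (fun p : ℕ => (p : ℤ) ∣ n), (2:ℝ) := Finset.sum_le_sum fun p hpI => (h2 p (Finset.mem_filter.mp hpI).1).2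
      _ = 2 * (I.filter (fun p : ℕ => (p : ℤ) ∣ n)).card := by rw [Finset.sum_const, nsmul_eq_mul, mul_comm]
      _ ≤ 2 * n.natAbs.primeFactors.card := by
          have : ((I.filter (fun p : ℕ => (p : ℤ) ∣ n)).card : ℝ) ≤ n.natAbs.primeFactors.card := by exact_mod_cast Finset.card_le_card h4
          linarith
      _ ≤ 8 * (1 + Real.log T) := by linarith

theorem b2_bd_of (hG : Stmt_GG_bd) : Stmt_b2_bd := by
  intro es v c3 D s ε hE hε
  have hes : ∀ x ∈ es, 0 ≤ x ∧ x ≤ 1 := by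
    intro x hx
    have hD := hE.D0
    have hge := hE.ge
    have hlen : es.length * v + c3 + s ≤ D / 8 := hE.small
    have h1 : x ≤ es.sum := List.single_le_sum (fun y hy => (hD.le.trans (hge y hy))) x hx
    have h2 := hE.sum
    have h3 : D ≤ x := hge x hx
    have hv := hE.v0
    have hc := hE.c0
    have hs := hE.s0
    have h4 : (0:ℝ) ≤ es.length * v := by positivity
    refine ⟨by linarith, ?_⟩
    have h5 : s ≤ x / 8 := by linarith
    linarith
  have hv1 : v ≤ 1 := by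
    obtain ⟨x, hx⟩ := List.exists_mem_of_ne_nil es hE.ne
    have h1 := hE.small
    have h2 := hE.ge x hx
    have h3 := (hes x hx).2
    have h4 : (1:ℝ) ≤ es.length := by
      have : 0 < es.length := List.length_pos_of_ne_nil hE.ne
      exact_mod_cast this
    have := hE.v0
    have hc := hE.c0
    have hs := hE.s0
    nlinarith
  filter_upwards [lamR_bd_of hG (ε := ε / 2) (by positivity), logp (K := 14 ^ es.length) (ε := ε / 2) (by positivity) es.length, eventually_gt_atTop (1:ℝ)]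
    with T h3 h4 hT n hn hnT
  have hT0 : 0 < T := by linarith
  have hL : 0 < Real.log T := Real.log_pos hT
  have hc31 : c3 ≤ 1 := by
    obtain ⟨x, hx⟩ := List.exists_mem_of_ne_nil es hE.ne
    have h1 := hE.small
    have h2 := hE.ge x hx
    have h5 := (hes x hx).2
    have := hE.v0
    have hs := hE.s0
    have h6 : (0:ℝ) ≤ es.length * v := by positivity
    linarith
  have h5 := h3 n hn hnT ⌊T ^ c3⌋₊ (by
    calc ((⌊T ^ c3⌋₊ : ℕ) : ℝ) ≤ T ^ c3 := Nat.floor_le (by positivity)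
      _ ≤ T ^ (2:ℝ) := Real.rpow_le_rpow_of_exponent_le hT.le (by linarith)
      _ = T ^ 2 := by rw [Real.rpow_two])
  have h6 : ∀ l : List ℝ, (∀ x ∈ l, 0 ≤ x ∧ x ≤ 1) → |((IL l v T).map fun I => cI I - omI I n).prod| ≤ (14 * (1 + Real.log T)) ^ l.length := by
    intro l
    induction l with
    | nil => intro _; simp [IL]
    | cons x l ih =>
      intro hl
      have hx := hl x List.mem_cons_self
      have hpr : ∀ p ∈ IP x v T, p.Prime := fun p hp => (K0bAux.mem_IP hp).1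
      have h7 := omI_bd hpr hn hT hnT
      have h8 := K0bAux.cI_le (e := x) (v := v) hT.le (by linarith [hE.v0])
      have h9 := K0bAux.cI_nonneg hpr
      have h10 : (x + v) * Real.log T ≤ 2 * Real.log T := mul_le_mul_of_nonneg_right (by linarith) hL.le
      have h11 : |cI (IP x v T) - omI (IP x v T) n| ≤ 14 * (1 + Real.log T) := by
        rw [abs_le]
        constructor <;> linarith [h7.1, h7.2]
      have h12 := ih fun y hy => hl y (List.mem_cons_of_mem _ hy)
      have h13 : ((IL (x :: l) v T).map fun I => cI I - omI I n).prod = (cI (IP x v T) - omI (IP x v T) n) * ((IL l v T).map fun I => cI I - omI I n).prod := by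
        simp [IL]
      rw [h13, abs_mul, List.length_cons, pow_succ, mul_comm ((14 * (1 + Real.log T)) ^ l.length)]
      exact mul_le_mul h11 h12 (abs_nonneg _) (by positivity)
  have h7 := h6 es hes
  unfold b2 bb
  rw [abs_mul]
  calc |lamR ⌊T ^ c3⌋₊ n| * |((IL es v T).map fun I => cI I - omI I n).prod| ≤ T ^ (ε / 2) * (14 * (1 + Real.log T)) ^ es.length :=
        mul_le_mul h5 h7 (abs_nonneg _) (by positivity)
    _ = T ^ (ε / 2) * (14 ^ es.length * (1 + Real.log T) ^ es.length) := by rw [mul_pow]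
    _ ≤ T ^ (ε / 2) * T ^ (ε / 2) := mul_le_mul_of_nonneg_left h4 (by positivity)
    _ = T ^ ε := by
        rw [← Real.rpow_add hT0]
        congr 1
        ring

end Pool.Agent.AP
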