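import Pool.Agent.Helper69.AP.Lnk
import Pool.Agent.Helper64.AP.UHs
import Pool.Agent.Helper82.AP.BPS

/-!
# Project A' (MP_8958e8), block PUF: the structured moduli
-/

open MeasureTheory Set Filter Topology
open Pool.Agent.Helper69.FF Pool.Agent.Helper57.KP
open scoped ContDiff

set_option autoImplicit false

namespace Pool.Agent.AP

private theorem esF_sum : (esF (1 / 1000000)).sum = 1 / 2 + 1 / 4000000 := by
  unfold esF
  norm_num

private theorem esF_len : (esF (1 / 1000000)).length = 7 := rfl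

theorem EXF : EX (esF (1 / 1000000)) (1 / 100000000) (1 / 4000000) (1 / 100) (1 / 4000000) where
  D0 := by norm_num
  v0 := by norm_num
  c0 := by norm_num
  s0 := by norm_num
  ne := by unfold esF; simp
  ge := fun x hx => (BPS.esF_ge x hx).1
  chain := BPS.esF_chain
  sum := esF_sum
  small := by
    rw [esF_len]
    norm_num

private theorem PU_perm {A B : List (Finset ℕ)} (h : A.Perm B) : PU A = PU B := by
  induction h with
  | nil => rfl
  | cons x _ ih => rw [PU, PU, ih]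
  | swap x y l =>
    ext u
    simp only [PU, Finset.mem_image, Finset.mem_product, Prod.exists]
    constructor
    · rintro ⟨p, _, ⟨hp, q, r, ⟨hq, hr⟩, rfl⟩, rfl⟩
      exact ⟨q, p * r, ⟨hq, p, r, ⟨hp, hr⟩, rfl⟩, by ring⟩
    · rintro ⟨p, _, ⟨hp, q, r, ⟨hq, hr⟩, rfl⟩, rfl⟩
      exact ⟨q, p * r, ⟨hq, p, r, ⟨hp, hr⟩, rfl⟩, by ring⟩
  | trans _ _ ih1 ih2 => exact ih1.trans ih2

private theorem PU_append {J₁ J₂ : List (Finset ℕ)} (hp : ∀ I ∈ J₁ ++ J₂, ∀ p ∈ I, p.Prime)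
    (hd : (J₁ ++ J₂).Pairwise (fun I J => Disjoint I J)) (g : ℕ → ℝ) :
    ∑ u ∈ PU (J₁ ++ J₂), g u = ∑ u₁ ∈ PU J₁, ∑ u₂ ∈ PU J₂, g (u₁ * u₂) := by
  induction J₁ generalizing g with
  | nil => simp [PU]
  | cons I J₁ ih =>
    rw [List.cons_append, List.pairwise_cons] at hd
    rw [List.cons_append] at hp ⊢
    have hpI : ∀ p ∈ I, p.Prime := hp I List.mem_cons_self
    have hpK : ∀ K ∈ J₁ ++ J₂, ∀ p ∈ K, p.Prime := fun K hK => hp K (List.mem_cons_of_mem _ hK)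
    have hpJ : ∀ K ∈ J₁, ∀ p ∈ K, p.Prime := fun K hK => hpK K (List.mem_append_left _ hK)
    rw [Helper69.AP.PU_cons_sum hpI hpK hd.1, Helper69.AP.PU_cons_sum hpI hpJ fun J hJ => hd.1 J (List.mem_append_left _ hJ)]
    refine Finset.sum_congr rfl fun p _ => ?_
    rw [ih hpK hd.2]
    refine Finset.sum_congr rfl fun u₁ _ => Finset.sum_congr rfl fun u₂ _ => ?_
    rw [mul_assoc]

theorem PU_split {J₁ J₂ Is : List (Finset ℕ)} (hperm : Is.Perm (J₁ ++ J₂)) (hp : ∀ I ∈ Is, ∀ p ∈ I, p.Prime)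
    (hd : Is.Pairwise (fun I J => Disjoint I J)) (g : ℕ → ℝ) :
    ∑ u ∈ PU Is, g u = ∑ u₁ ∈ PU J₁, ∑ u₂ ∈ PU J₂, g (u₁ * u₂) := by
  rw [PU_perm hperm]
  exact PU_append (fun I hI => hp I (hperm.mem_iff.mpr hI)) ((hperm.pairwise_iff (fun h => h.symm)).mp hd) g

private theorem sqf {J : List (Finset ℕ)} (hp : ∀ I ∈ J, ∀ p ∈ I, p.Prime) (hd : J.Pairwise (fun I J => Disjoint I J)) :
    ∀ u ∈ PU J, Squarefree u ∧ u.primeFactors.card = J.length := by
  induction J with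
  | nil =>
    intro u hu
    rw [PU, Finset.mem_singleton] at hu
    subst hu
    simp
  | cons I J ih =>
    intro u hu
    rw [PU, Finset.mem_image] at hu
    obtain ⟨⟨p, q⟩, hpq, rfl⟩ := hu
    obtain ⟨h1, h2⟩ := Finset.mem_product.mp hpq
    rw [List.pairwise_cons] at hd
    have hpI : ∀ p ∈ I, p.Prime := hp I List.mem_cons_self
    have hpK : ∀ K ∈ J, ∀ p ∈ K, p.Prime := fun K hK => hp K (List.mem_cons_of_mem _ hK)
    obtain ⟨h3, h4⟩ := ih hpK hd.2 q h2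
    have hpp := hpI p h1
    have hnd := Helper69.AP.not_dvd hpI hpK hd.1 h1 h2
    have hco : Nat.Coprime p q := (Nat.Prime.coprime_iff_not_dvd hpp).mpr hnd
    show Squarefree (p * q) ∧ (p * q).primeFactors.card = (I :: J).length
    refine ⟨(Nat.squarefree_mul hco).mpr ⟨hpp.squarefree, h3⟩, ?_⟩
    rw [hco.primeFactors_mul, Finset.card_union_of_disjoint hco.disjoint_primeFactors, hpp.primeFactors, h4, List.length_cons]
    simp [add_comm]

private theorem IF_pr {T : ℝ} {J : List (Finset ℕ)} (hT : 1 < T) (hJ : J.Sublist (IF T)) :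
    (∀ I ∈ J, ∀ p ∈ I, p.Prime) ∧ J.Pairwise (fun I J => Disjoint I J) :=
  ⟨fun I hI p hp => (BPS.IF_prime hT I (hJ.subset hI) p hp).1, (BPS.IF_disj hT).sublist hJ⟩

theorem PU_mem : ∀ᶠ T : ℝ in atTop, ∀ J : List (Finset ℕ), J.Sublist (IF T) → ∀ u ∈ PU J,
    Squarefree u ∧ u.primeFactors.card = J.length ∧ J.length ≤ 7 ∧ (∀ p : ℕ, p.Prime → p ∣ u → T ^ (1 / 100 : ℝ) < p) ∧
      (u : ℝ) ≤ T ^ (1 / 2 + 1 / 2000000 : ℝ) ∧ (J ≠ IF T → (u : ℝ) ≤ T ^ (491 / 1000 : ℝ)) := by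
  filter_upwards [eventually_gt_atTop (1:ℝ)] with T hT J hJ u hu
  obtain ⟨hp, hd⟩ := IF_pr hT hJ
  obtain ⟨h1, h2⟩ := sqf hp hd u hu
  have hlen : J.length ≤ 7 := by
    have := hJ.length_le
    unfold IF IL at this
    rw [List.length_map, esF_len] at this
    exact this
  have hJ' := hJ
  rw [IF, IL, List.sublist_map_iff] at hJ'
  obtain ⟨l, hl, rfl⟩ := hJ'
  have hsz := (Helper64.UHs.PU_size hT.le l u hu).2
  have hls := Helper64.UHs.sum_le_of_sublist (by norm_num : (0:ℝ) ≤ 1 / 100) hl fun x hx => (BPS.esF_ge x hx).1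
  have hll : (l.length : ℝ) ≤ 7 := by
    rw [List.length_map] at hlen
    exact_mod_cast hlen
  rw [esF_sum] at hls
  refine ⟨h1, h2, hlen, ?_, hsz.trans (Real.rpow_le_rpow_of_exponent_le hT.le ?_), fun hne => hsz.trans (Real.rpow_le_rpow_of_exponent_le hT.le ?_)⟩
  · intro p hpp hpu
    obtain ⟨I, hI, hpI⟩ := Helper69.AP.PU_prime hp hu hpp hpu
    rw [List.mem_map] at hI
    obtain ⟨x, hx, rfl⟩ := hI
    have h3 := (Helper64.UHs.IP_mem hpI).2.1
    exact lt_of_le_of_lt (Real.rpow_le_rpow_of_exponent_le hT.le (BPS.esF_ge x (hl.subset hx)).1) h3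
  · have := hls.1
    linarith
  · have hne' : l ≠ esF (1 / 1000000) := fun h => hne (by rw [h]; rfl)
    have := hls.2 hne'
    linarith

/-- `UU` as a difference of products -/
private theorem UU_eq {T : ℝ} {J : List (Finset ℕ)} (hT : 1 < T) (hJ : J.Sublist (IF T)) (n : ℤ) :
    UU J n = (J.map fun I => omI I n).prod - (J.map cI).prod := by
  obtain ⟨hp, hd⟩ := IF_pr hT hJ
  rw [Helper69.AP.prod_om hp hd n, ← Helper69.AP.sum_inv hp hd, ← Finset.sum_sub_distrib]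
  unfold UU
  exact Finset.sum_congr rfl fun u _ => by ring

private theorem list_bd {A : ℝ} (hA : 1 ≤ A) {J : List (Finset ℕ)} (f : Finset ℕ → ℝ) (h : ∀ I ∈ J, 0 ≤ f I ∧ f I ≤ A) (hl : J.length ≤ 7) :
    0 ≤ (J.map f).prod ∧ (J.map f).prod ≤ A ^ 7 := by
  have h1 : 0 ≤ (J.map f).prod ∧ (J.map f).prod ≤ A ^ J.length := by
    clear hl
    induction J with
    | nil => simp
    | cons I J ih =>
      obtain ⟨h2, h3⟩ := ih fun K hK => h K (List.mem_cons_of_mem _ hK)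
      obtain ⟨h4, h5⟩ := h I List.mem_cons_self
      rw [List.map_cons, List.prod_cons, List.length_cons, pow_succ, mul_comm (A ^ J.length)]
      exact ⟨mul_nonneg h4 h2, mul_le_mul h5 h3 h2 (by linarith)⟩
  exact ⟨h1.1, h1.2.trans (pow_le_pow_right₀ hA hl)⟩

private theorem cI_bd {T : ℝ} {J : List (Finset ℕ)} (hT : 1 < T) (hJ : J.Sublist (IF T)) : ∀ I ∈ J, 0 ≤ cI I ∧ cI I ≤ 2 * (1 + Real.log T) := by
  intro I hI
  have h1 := hJ.subset hI
  rw [IF, IL, List.mem_map] at h1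
  obtain ⟨x, hx, rfl⟩ := h1
  have h2 := BPS.esF_ge x hx
  exact BPS.cI_le hT.le (by linarith)

/-- `ω_I(n)` is at most twice the number of primes dividing `n` -/
private theorem omI_bd {I : Finset ℕ} (hp : ∀ p ∈ I, p.Prime) {n : ℤ} (hn : n ≠ 0) {T : ℝ} (hT : 1 < T) (hnT : |(n : ℝ)| ≤ T ^ 2) :
    0 ≤ omI I n ∧ omI I n ≤ 8 * (1 + Real.log T) := by
  have hL : 0 < Real.log T := Real.log_pos hT
  have h2 : ∀ p ∈ I, (0:ℝ) ≤ (p : ℝ) / ((p : ℝ) - 1) ∧ (p : ℝ) / ((p : ℝ) - 1) ≤ 2 := by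
    intro p hpI
    have h3 : (2:ℝ) ≤ p := by exact_mod_cast (hp p hpI).two_le
    refine ⟨div_nonneg (by linarith) (by linarith), ?_⟩
    rw [div_le_iff₀ (by linarith)]
    linarith
  refine ⟨?_, ?_⟩
  · unfold omI
    refine Finset.sum_nonneg fun p hpI => ?_
    split_ifs
    · exact (h2 p hpI).1
    · exact le_rfl
  · unfold omI
    rw [← Finset.sum_filter]
    have h4 : I.filter (fun p : ℕ => (p : ℤ) ∣ n) ⊆ n.natAbs.primeFactors := by
      intro p hpI
      rw [Finset.mem_filter] at hpI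
      rw [Nat.mem_primeFactors]
      exact ⟨hp p hpI.1, Int.natCast_dvd.mp hpI.2, Int.natAbs_ne_zero.mpr hn⟩
    have h5 : n.natAbs.primeFactors.card ≤ Nat.log 2 n.natAbs := by
      have hna : n.natAbs ≠ 0 := Int.natAbs_ne_zero.mpr hn
      refine Nat.le_log_of_pow_le (by norm_num) ?_
      calc 2 ^ n.natAbs.primeFactors.card = ∏ _p ∈ n.natAbs.primeFactors, 2 := by simp
        _ ≤ ∏ p ∈ n.natAbs.primeFactors, p := Finset.prod_le_prod' fun p hp => (Nat.prime_of_mem_primeFactors hp).two_le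
        _ ≤ n.natAbs := Nat.le_of_dvd (Nat.pos_of_ne_zero hna) (Nat.prod_primeFactors_dvd _)
    have h6 : (n.natAbs.primeFactors.card : ℝ) ≤ 4 * (1 + Real.log T) := by
      have hna : 0 < n.natAbs := Int.natAbs_pos.mpr hn
      have h7 : ((Nat.log 2 n.natAbs : ℕ) : ℝ) ≤ Real.log (n.natAbs : ℝ) / Real.log 2 := by
        rw [le_div_iff₀ (Real.log_pos (by norm_num))]
        have h8 : ((2 ^ Nat.log 2 n.natAbs : ℕ) : ℝ) ≤ (n.natAbs : ℝ) := by exact_mod_cast Nat.pow_log_le_self 2 hna.ne'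
        have h9 := Real.log_le_log (by positivity) h8
        rw [Nat.cast_pow, Real.log_pow] at h9
        exact_mod_cast h9
      have h10 : ((n.natAbs : ℕ) : ℝ) = |(n : ℝ)| := by
        rw [Nat.cast_natAbs, Int.cast_abs]
      have h11 : Real.log (n.natAbs : ℝ) ≤ 2 * Real.log T := by
        rw [h10]
        have : Real.log |(n : ℝ)| ≤ Real.log (T ^ 2) := Real.log_le_log (by
          have : (n : ℝ) ≠ 0 := by exact_mod_cast hn
          positivity) hnT
        rw [Real.log_pow] at this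
        exact_mod_cast this
      have h12 : (1:ℝ) / 2 ≤ Real.log 2 := by
        have := Real.log_two_gt_d9
        linarith
      have h13 : Real.log (n.natAbs : ℝ) / Real.log 2 ≤ 4 * Real.log T := by
        rw [div_le_iff₀ (by linarith)]
        nlinarith
      have h14 : (n.natAbs.primeFactors.card : ℝ) ≤ ((Nat.log 2 n.natAbs : ℕ) : ℝ) := by exact_mod_cast h5
      linarith
    calc ∑ p ∈ I.filter (fun p : ℕ => (p : ℤ) ∣ n), (p : ℝ) / ((p : ℝ) - 1)
        ≤ ∑ _p ∈ I.filter (fun p : ℕ => (p : ℤ) ∣ n), (2:ℝ) := Finset.sum_le_sum fun p hpI => (h2 p (Finset.mem_filter.mp hpI).1).2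
      _ = 2 * (I.filter (fun p : ℕ => (p : ℤ) ∣ n)).card := by rw [Finset.sum_const, nsmul_eq_mul, mul_comm]
      _ ≤ 2 * n.natAbs.primeFactors.card := by
          have : ((I.filter (fun p : ℕ => (p : ℤ) ∣ n)).card : ℝ) ≤ n.natAbs.primeFactors.card := by exact_mod_cast Finset.card_le_card h4
          linarith
      _ ≤ 8 * (1 + Real.log T) := by linarith

private theorem pow_small {ε : ℝ} (hε : 0 < ε) : ∀ᶠ T : ℝ in atTop, 2 * (8 * (1 + Real.log T)) ^ 7 ≤ T ^ ε := by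
  have h1 : (fun T : ℝ => Real.log T) =o[atTop] fun T : ℝ => T ^ (ε / 8) := isLittleO_log_rpow_atTop (by positivity)
  have h2 := h1.bound (by norm_num : (0:ℝ) < 1 / 16)
  have h3 : Tendsto (fun T : ℝ => T ^ (ε / 8)) atTop atTop := tendsto_rpow_atTop (by positivity)
  filter_upwards [h2, h3.eventually_ge_atTop 16, eventually_gt_atTop (1:ℝ)] with T h4 h5 hT
  have hL : 0 ≤ Real.log T := (Real.log_pos hT).le
  have hT0 : 0 < T := by linarith
  rw [Real.norm_of_nonneg hL, Real.norm_of_nonneg (Real.rpow_nonneg hT0.le _)] at h4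
  have h6 : 8 * (1 + Real.log T) ≤ T ^ (ε / 8) := by linarith
  have h7 : (8 * (1 + Real.log T)) ^ 7 ≤ (T ^ (ε / 8)) ^ 7 := pow_le_pow_left₀ (by positivity) h6 7
  have h8 : T ^ ε = (T ^ (ε / 8)) ^ 7 * T ^ (ε / 8) := by
    rw [← pow_succ, ← Real.rpow_natCast, ← Real.rpow_mul hT0.le]
    congr 1
    push_cast
    ring
  rw [h8]
  have h9 : 0 ≤ (T ^ (ε / 8)) ^ 7 := by positivity
  nlinarith

theorem UU_bd {ε : ℝ} (hε : 0 < ε) : ∀ᶠ T : ℝ in atTop, ∀ J : List (Finset ℕ), J.Sublist (IF T) → ∀ n : ℤ, n ≠ 0 → |(n : ℝ)| ≤ T ^ 2 →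
    |UU J n| ≤ T ^ ε := by
  filter_upwards [pow_small hε, eventually_gt_atTop (1:ℝ)] with T h1 hT J hJ n hn hnT
  have hL : 0 < Real.log T := Real.log_pos hT
  obtain ⟨hp, hd⟩ := IF_pr hT hJ
  have hlen : J.length ≤ 7 := by
    have := hJ.length_le
    unfold IF IL at this
    rw [List.length_map, esF_len] at this
    exact this
  obtain ⟨a1, a2⟩ := list_bd (A := 8 * (1 + Real.log T)) (by linarith) (fun I => omI I n) (fun I hI => omI_bd (hp I hI) hn hT hnT) hlen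
  obtain ⟨b1, b2⟩ := list_bd (A := 8 * (1 + Real.log T)) (by linarith) cI (fun I hI => ⟨(cI_bd hT hJ I hI).1, (cI_bd hT hJ I hI).2.trans (by linarith)⟩) hlen
  rw [UU_eq hT hJ n, abs_le]
  constructor <;> linarith

theorem UU_zero : ∀ᶠ T : ℝ in atTop, ∀ J : List (Finset ℕ), J.Sublist (IF T) → |UU J 0| ≤ T ^ (51 / 100 : ℝ) := by
  filter_upwards [pow_small (ε := 9 / 1000) (by norm_num), eventually_gt_atTop (1:ℝ), PU_mem] with T h1 hT hPU J hJ
  have hL : 0 < Real.log T := Real.log_pos hT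
  have hT0 : 0 < T := by linarith
  obtain ⟨hp, hd⟩ := IF_pr hT hJ
  have hlen : J.length ≤ 7 := by
    have := hJ.length_le
    unfold IF IL at this
    rw [List.length_map, esF_len] at this
    exact this
  obtain ⟨b1, b2⟩ := list_bd (A := 8 * (1 + Real.log T)) (by linarith) cI (fun I hI => ⟨(cI_bd hT hJ I hI).1, (cI_bd hT hJ I hI).2.trans (by linarith)⟩) hlen
  have h2 : |UU J 0| ≤ T ^ (1 / 2 + 1 / 2000000 : ℝ) * ∑ u ∈ PU J, (u : ℝ) / Nat.totient u * (1 / u) := by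
    unfold UU
    rw [Finset.mul_sum]
    refine (Finset.abs_sum_le_sum_abs _ _).trans (Finset.sum_le_sum fun u hu => ?_)
    have hu0 : 0 < u := Nat.pos_of_ne_zero (Helper69.AP.PU_ne hp hu)
    have hu1 : (1:ℝ) ≤ u := by exact_mod_cast hu0
    have hphi : (0:ℝ) < Nat.totient u := by exact_mod_cast Nat.totient_pos.mpr hu0
    have h3 : (u : ℝ) ≤ T ^ (1 / 2 + 1 / 2000000 : ℝ) := (hPU J hJ u hu).2.2.2.2.1
    rw [if_pos (dvd_zero _), abs_mul, abs_of_nonneg (by positivity)]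
    have h4 : |(1:ℝ) - 1 / u| ≤ 1 := by
      rw [abs_le]
      have h5 : 1 / (u : ℝ) ≤ 1 := by
        rw [div_le_one (by linarith)]
        exact hu1
      have h6 : 0 ≤ 1 / (u : ℝ) := by positivity
      constructor <;> linarith
    calc (u : ℝ) / Nat.totient u * |(1:ℝ) - 1 / u| ≤ (u : ℝ) / Nat.totient u * 1 := mul_le_mul_of_nonneg_left h4 (by positivity)
      _ = (u : ℝ) * ((u : ℝ) / Nat.totient u * (1 / u)) := by field_simp
      _ ≤ T ^ (1 / 2 + 1 / 2000000 : ℝ) * ((u : ℝ) / Nat.totient u * (1 / u)) := mul_le_mul_of_nonneg_right h3 (by positivity)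
  rw [Helper69.AP.sum_inv hp hd] at h2
  have h3 : (J.map cI).prod ≤ T ^ (9 / 1000 : ℝ) := by linarith
  calc |UU J 0| ≤ T ^ (1 / 2 + 1 / 2000000 : ℝ) * T ^ (9 / 1000 : ℝ) := h2.trans (mul_le_mul_of_nonneg_left h3 (by positivity))
    _ = T ^ (1 / 2 + 1 / 2000000 + 9 / 1000 : ℝ) := (Real.rpow_add hT0 _ _).symm
    _ ≤ T ^ (51 / 100 : ℝ) := Real.rpow_le_rpow_of_exponent_le hT.le (by norm_num)

end Pool.Agent.AP
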