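import Pool.Agent.Helper56.AP.Defs3

/-!
# Project A' (MP_8958e8): the statements of parts 3 and 4 as propositions (to be used as hypotheses)
-/

open MeasureTheory Set Filter Topology
open Pool.Agent.Helper57.Zeta Pool.Agent.Helper57.PC Pool.Agent.Helper57.LH Pool.Agent.Helper78.SG
open Pool.Agent.Helper4.SH (om)
open Pool.Agent.Helper69.FF Pool.Agent.Helper57.KP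
open scoped ContDiff

set_option autoImplicit false

namespace Pool.Agent.AP

def Stmt_lamR_eq : Prop := ∀ (R : ℕ) (n : ℤ), lamR R n = ∑ b ∈ (Finset.Icc 1 R).filter (fun b : ℕ => (b : ℤ) ∣ n), xi R b

def Stmt_cr_coprime_mul : Prop := ∀ {r r' : ℕ} (h : Nat.Coprime r r') (n : ℤ), cr (r * r') n = cr r n * cr r' n

def Stmt_cr_prime : Prop := ∀ {p : ℕ} (hp : p.Prime) (n : ℤ), cr p n = if (p : ℤ) ∣ n then (p : ℝ) - 1 else -1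

def Stmt_cr_mul_coprime : Prop := ∀ {r : ℕ} {m : ℤ} (h : IsCoprime (r : ℤ) m) (l : ℤ), cr r (m * l) = cr r l

def Stmt_cr_at_prime : Prop := ∀ {r p : ℕ} (hr : 1 ≤ r) (hp : p.Prime) (h : r < p), cr r (p : ℤ) = (ArithmeticFunction.moebius r : ℝ)

def Stmt_GG_le : Prop := ∀ (q R : ℕ), GG q R ≤ GG 1 R

def Stmt_GG_bd : Prop := ∃ C : ℝ, 0 < C ∧ ∀ R : ℕ, 1 ≤ R → Real.log R ≤ GG 1 R ∧ GG 1 R ≤ Real.log R + C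

def Stmt_xi_bd : Prop := ∃ C : ℝ, 0 < C ∧ ∀ B b : ℕ, 1 ≤ b → b ≤ B → |xi B b| ≤ C * (1 + Real.log B) ^ 2

def Stmt_lamR_bd : Prop := ∀ {ε : ℝ} (hε : 0 < ε), ∀ᶠ T : ℝ in atTop, ∀ n : ℤ, n ≠ 0 → |(n : ℝ)| ≤ T ^ 2 → ∀ R : ℕ, (R : ℝ) ≤ T ^ 2 →
    |lamR R n| ≤ T ^ ε

def Stmt_b1_bd : Prop := ∀ {κ2 e ε : ℝ} (h2 : 0 ≤ κ2) (h2' : κ2 ≤ 1) (he : 0 ≤ e) (hε : 0 < ε), ∀ᶠ T : ℝ in atTop, ∀ n : ℤ, n ≠ 0 → |(n : ℝ)| ≤ T ^ 2 →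
    |b1 κ2 e T n| ≤ T ^ ε

def Stmt_b2_bd : Prop := ∀ {es : List ℝ} {v c3 D s ε : ℝ} (hE : EX es v c3 D s) (hε : 0 < ε), ∀ᶠ T : ℝ in atTop, ∀ n : ℤ, n ≠ 0 → |(n : ℝ)| ≤ T ^ 2 →
    |b2 c3 es v T n| ≤ T ^ ε

def Stmt_cI_lim : Prop := ∀ {e v : ℝ} (he : 0 < e) (hv : 0 < v), Tendsto (fun T : ℝ => cI (IP e v T)) atTop (𝓝 (Real.log (1 + v / e)))

def Stmt_Sm_of_sum : Prop := ∀ {W : ℝ → ℝ} {R : ℝ} (hW : PF W R) (hR : 0 < R), ∃ C : ℝ, 0 < C ∧ ∀ (c : ℝ) (f : ℕ → ℝ) (A E : ℝ), 0 ≤ E → R ≤ c →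
    (∀ N : ℕ, |∑ n ∈ Finset.Icc 1 N, f n - A * N| ≤ E) → |Sm W R c f - A * ∫ y, W y ^ 2| ≤ C * (E + |A|) * Real.exp (-c)

def Stmt_Sm_dvd : Prop := ∀ {W : ℝ → ℝ} {R : ℝ} (hW : PF W R) (c : ℝ) (f : ℕ → ℝ) {m : ℕ} (hm : 1 ≤ m), Sm W R c (fun n => if m ∣ n then f (n / m) else 0) = (1 / m) * Sm W R (c - Real.log m) f

def Stmt_Sm_Lam : Prop := ∀ {W : ℝ → ℝ} {R ε : ℝ} (hW : PF W R) (hR : 0 < R) (hε : 0 < ε), ∀ᶠ c : ℝ in atTop,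
    |Sm W R c (fun n => ArithmeticFunction.vonMangoldt n) - ∫ y, W y ^ 2| ≤ ε

def Stmt_Sm_pp : Prop := ∀ {W : ℝ → ℝ} {R : ℝ} (hW : PF W R) (hR : 0 < R), ∃ C : ℝ, 0 < C ∧ ∀ c : ℝ, 1 ≤ c → ∀ (f : ℕ → ℝ) (F : ℝ), (∀ n : ℕ, 1 ≤ n → (n : ℝ) ≤ Real.exp (c + R) → |f n| ≤ F) →
    |Sm W R c (fun n => if n.Prime then 0 else ArithmeticFunction.vonMangoldt n * f n)| ≤ C * F * c * Real.exp (-(c / 2))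

def Stmt_corr : Prop := ∀ {r r' : ℕ} (hr : Squarefree r) (hr' : Squarefree r') (k : ℤ) {N₁ N₂ : ℕ} (h : N₁ ≤ N₂), |∑ n ∈ Finset.Ioc N₁ N₂, cr r n * cr r' (n + k) - (if r = r' then cr r k else 0) * ((N₂ : ℝ) - N₁)| ≤
      2 * ((ArithmeticFunction.sigma 1 r : ℕ) : ℝ) * ((ArithmeticFunction.sigma 1 r' : ℕ) : ℝ)

def Stmt_sig_phi : Prop := ∃ C : ℝ, 0 < C ∧ ∀ R : ℕ, 1 ≤ R → ∑ r ∈ (Finset.Icc 1 R).filter Squarefree, ((ArithmeticFunction.sigma 1 r : ℕ) : ℝ) / Nat.totient r ≤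
    C * R * (1 + Real.log R) ^ 4

def Stmt_FS_b1b1 : Prop := ∀ {κ2 e : ℝ} (h2 : 0 < κ2) (he : 0 < e) (h : κ2 + e < 1 / 2), ∃ κ s : ℝ, 0 < κ ∧ 0 < s ∧
    FS (fun T => b1 κ2 e T) (fun T => b1 κ2 e T) κ s

def Stmt_K0d : Prop := ∀ {κ2 e ε : ℝ} (h2 : 0 < κ2) (he : 0 < e) (h : κ2 + e < 1 / 2) (hε : 0 < ε) {W : ℝ → ℝ} {R : ℝ} (hW : PF W R) (hR : 0 < R), ∀ᶠ T : ℝ in atTop, ∀ c : ℝ, Real.log T ≤ c → |Sm W R c (fun n => b1 κ2 e T n ^ 2) -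
      (∫ y, W y ^ 2) * (GG 1 ⌊T ^ (1 / 2 - e)⌋₊ - GG 1 ⌊T ^ κ2⌋₊)| ≤ ε * Real.log T

def Stmt_K0a1 : Prop := ∀ {κ2 e ε : ℝ} (h2 : 0 < κ2) (he : 0 < e) (h : κ2 + e < 1 / 2) (hε : 0 < ε) {W : ℝ → ℝ} {R : ℝ} (hW : PF W R) (hR : 0 < R), ∀ᶠ T : ℝ in atTop, ∀ c : ℝ, Real.log T ≤ c → c ≤ 3 / 2 * Real.log T → |Sm W R c (fun n => ArithmeticFunction.vonMangoldt n * b1 κ2 e T n) -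
      (∫ y, W y ^ 2) * (GG 1 ⌊T ^ (1 / 2 - e)⌋₊ - GG 1 ⌊T ^ κ2⌋₊)| ≤ ε * Real.log T

def Stmt_K0a2 : Prop := ∀ {es : List ℝ} {v c3 D s ε : ℝ} (hE : EX es v c3 D s) (hε : 0 < ε) {W : ℝ → ℝ} {R : ℝ} (hW : PF W R) (hR : 0 < R), ∀ᶠ T : ℝ in atTop, ∀ c : ℝ, Real.log T ≤ c → c ≤ 3 / 2 * Real.log T → |Sm W R c (fun n => ArithmeticFunction.vonMangoldt n * b2 c3 es v T n) -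
      (∫ y, W y ^ 2) * (GG 1 ⌊T ^ c3⌋₊ * ((IL es v T).map cI).prod)| ≤ ε * Real.log T

def Stmt_K0b : Prop := ∀ {es : List ℝ} {v c3 D s ε : ℝ} (hE : EX es v c3 D s) (hε : 0 < ε) {W : ℝ → ℝ} {R : ℝ} (hW : PF W R) (hR : 0 < R), ∀ᶠ T : ℝ in atTop, ∀ c : ℝ, Real.log T ≤ c → c ≤ 11 / 10 * Real.log T → Sm W R c (fun n => b2 c3 es v T n ^ 2) ≤
      (∫ y, W y ^ 2) * (GG 1 ⌊T ^ c3⌋₊ * (es.map fun x => cI (IP x v T) * (cI (IP x v T) + 8 / x)).prod) + ε * Real.log T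

def Stmt_GQ : Prop := ∃ C₀ C : ℝ, 0 < C ∧ ∀ q R : ℕ, Squarefree q → 1 ≤ R →
    |GG q R - (Nat.totient q : ℝ) / q * (Real.log R + C₀ + ∑ p ∈ q.primeFactors, Real.log p / p)| ≤
      C * (q.divisors.card : ℝ) * (1 + Real.log R) * (R : ℝ) ^ (-(1 / 3 : ℝ))

def Stmt_LL : Prop := ∀ {θ : ℝ} (hθ : 0 < θ), ∃ τ : ℝ, 0 < τ ∧ ∀ᶠ T : ℝ in atTop, ∀ q R l : ℕ, Squarefree q → (q : ℝ) ≤ T ^ 2 → (R : ℝ) ≤ T ^ 2 → 1 < l →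
    (l : ℝ) * T ^ θ ≤ R → Nat.Coprime l q →
    |lamQ q R l - (Nat.totient q : ℝ) / q * (ArithmeticFunction.vonMangoldt l - (if IsPrimePow l then Real.log l.minFac / l.minFac else 0))| ≤ T ^ (-τ)

def Stmt_K0c : Prop := ∀ {es : List ℝ} {v c3 D s κ2 e ε : ℝ} (hE : EX es v c3 D s) (h2 : 0 < κ2) (h2' : κ2 < D) (hk : κ2 ≤ 1 / 4) (he : 0 < e) (hes : e ≤ s / 4) (h : κ2 + e < 1 / 2) (hε : 0 < ε)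
    {W : ℝ → ℝ} {R : ℝ} (hW : PF W R) (hR : 0 < R), ∀ᶠ T : ℝ in atTop, ∀ c : ℝ, Real.log T ≤ c → c ≤ (1 + s / 4) * Real.log T →
    |Sm W R c (fun n => b1 κ2 e T n * b2 c3 es v T n)| ≤ ε * Real.log T

def Stmt_openB : Prop := ∀ (g : TF) {W : ℝ → ℝ} {R : ℝ} (hW : PF W R) (hR : 0 < R) {κ s : ℝ} (hκ : 0 < κ) (hκ1 : κ ≤ 1 / 4) (hs : 6 * κ ≤ s), ∀ᶠ T : ℝ in atTop, ∀ c : ℝ, Real.log T ≤ c → c ≤ (1 + κ / 4) * Real.log T → ∀ a a' : ℤ → ℝ,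
    (∀ n : ℤ, 1 ≤ n → (n : ℝ) ≤ T ^ 2 → |a n| ≤ T ^ (κ / 8)) → (∀ n : ℤ, 1 ≤ n → (n : ℝ) ≤ T ^ 2 → |a' n| ≤ T ^ (κ / 8)) →
    (∀ k : ℤ, k ≠ 0 → |(k : ℝ)| ≤ T ^ κ → ∀ N₁ N₂ : ℕ, T ^ (9 / 10 : ℝ) ≤ N₁ → (N₂ : ℝ) ≤ T ^ (1 + κ) →
      |∑ n ∈ Finset.Ioc N₁ N₂, a n * a' (n + k)| ≤ T ^ (1 - s)) →
    |(∫ t, om g.h T t * (SB W R c (fun n => a n) t * (starRingEnd ℂ) (SB W R c (fun n => a' n) t)).re) -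
      T * (∫ x, g.h x) * Sm W R c (fun n => a n * a' n)| ≤ T ^ (1 - κ)

def Stmt_link : Prop := ∀ {ι : Type} (S : Finset ι) (N : ι → ℤ) (f : ι → ℝ) (B : ℕ) (Is : List (Finset ℕ)) (hne : Is ≠ [])
    (hp : ∀ I ∈ Is, ∀ p ∈ I, p.Prime ∧ B < p) (hd : Is.Pairwise (fun I J => Disjoint I J)) (E : ℝ)
    (h : ∀ J : List (Finset ℕ), J.Sublist Is → J ≠ [] →
      |∑ b ∈ Finset.Icc 1 B, xi B b * ∑ u ∈ PU J, (u : ℝ) / Nat.totient u * ∑ i ∈ S, f i *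
        ((if ((b * u : ℕ) : ℤ) ∣ N i then (1 : ℝ) else 0) - (1 / u) * (if (b : ℤ) ∣ N i then (1 : ℝ) else 0))| ≤ E), |∑ i ∈ S, f i * bb B Is (N i)| ≤ (Is.map fun I => 1 + cI I).prod * E

def Stmt_telescope : Prop := ∀ (B : ℕ) (Is : List (Finset ℕ)) (hp : ∀ I ∈ Is, ∀ p ∈ I, p.Prime ∧ B < p) (hd : Is.Pairwise (fun I J => Disjoint I J)) (I : Finset ℕ)
    (hpI : ∀ p ∈ I, p.Prime ∧ B < p) (hdI : ∀ J ∈ Is, Disjoint I J) (n : ℤ), bb B (I :: Is) n = cI I * bb B Is n - ∑ p ∈ I, (p : ℝ) / ((p : ℝ) - 1) * (if (p : ℤ) ∣ n then bb B Is (n / p) else 0)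

def Stmt_BLS1 : Prop := ∀ {κ2 e ρ : ℝ} (h2 : 0 < κ2) (he : 0 < e) (h : κ2 + e < 1 / 2) (hρ : 0 < ρ) (hρ2 : 8 * ρ ≤ κ2) (hρe : 8 * ρ ≤ e), ∀ᶠ T : ℝ in atTop,
    ∀ (k : ℤ) (M L M₀ L₀ : ℕ) (α β : ℕ → ℝ), k ≠ 0 → |(k : ℝ)| ≤ T ^ (ρ / 100) → T ^ ρ ≤ M → T ^ ρ ≤ L → M₀ ≤ M → L₀ ≤ L →
    (M : ℝ) * L ≤ T ^ (1 + ρ / 100) → (∀ m, |α m| ≤ 1) → (∀ l, |β l| ≤ 1) →
    |∑ m ∈ Finset.Ioc M₀ M, ∑ l ∈ Finset.Ioc L₀ L, α m * β l * b1 κ2 e T (m * l + k)| ≤ T ^ (1 - ρ / 3)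

def Stmt_TI1 : Prop := ∀ {κ2 e : ℝ} (h2 : 0 < κ2) (he : 0 < e) (h : κ2 + e < 1 / 2), ∀ᶠ T : ℝ in atTop,
    ∀ (k : ℤ) (d N₁ N₂ : ℕ), 1 ≤ d → (d : ℝ) ≤ T ^ (κ2 / 2) → N₁ ≤ N₂ → |∑ m ∈ Finset.Ioc N₁ N₂, b1 κ2 e T (d * m + k)| ≤ T ^ (1 / 2 : ℝ)

def Stmt_box : Prop := ∃ C : ℝ, 0 < C ∧ ∀ (F : ℤ → ℝ) (k : ℤ) (N₀ N J : ℕ) (P : ℕ → Prop) (E Fm Dd : ℝ), 2 ≤ J → J ≤ N → N₀ ≤ N → 0 ≤ E → 1 ≤ Dd →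
    (∀ n : ℕ, 1 ≤ n → n ≤ N → |F (n + k)| ≤ Fm) → (∀ n : ℕ, 1 ≤ n → n ≤ N → ((n.divisors.card : ℕ) : ℝ) ≤ Dd) →
    (∀ (α β : ℕ → ℝ) (M L M₀ L₀ : ℕ), (∀ m, |α m| ≤ 1) → (∀ l, |β l| ≤ 1) → (∀ l, β l ≠ 0 → P l) → M * L ≤ N → M₀ ≤ M → L₀ ≤ L →
      |∑ m ∈ Finset.Ioc M₀ M, ∑ l ∈ Finset.Ioc L₀ L, α m * β l * F (m * l + k)| ≤ E) →
    ∀ (α β : ℕ → ℝ), (∀ m, |α m| ≤ 1) → (∀ l, |β l| ≤ 1) → (∀ l, β l ≠ 0 → P l) →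
      |∑ l ∈ Finset.Icc 1 N, ∑ m ∈ Finset.Icc 1 N, β l * α m * (if N₀ < l * m ∧ l * m ≤ N then F ((l * m : ℕ) + k) else 0)| ≤
        C * (J * Real.log N) ^ 2 * E + C * Fm * Dd * (N / J + 1) * (1 + Real.log N)

def Stmt_FS_mono : Prop := ∀ {a a' : ℝ → ℤ → ℝ} {κ s κ' s' : ℝ} (h : FS a a' κ s) (hκ : κ' ≤ κ) (hs : s' ≤ s), FS a a' κ' s'

def Stmt_FS_Lb1 : Prop := ∀ {κ2 e : ℝ} (h2 : 0 < κ2) (he : 0 < e) (h : κ2 + e < 1 / 2), ∃ κ s : ℝ, 0 < κ ∧ 0 < s ∧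
    FS (fun _ => Lz) (fun T => b1 κ2 e T) κ s

def Stmt_EXF : Prop := EX (esF (1 / 1000000)) (1 / 100000000) (1 / 4000000) (1 / 100) (1 / 4000000)

def Stmt_PU_split : Prop := ∀ {J₁ J₂ Is : List (Finset ℕ)} (hperm : Is.Perm (J₁ ++ J₂)) (hp : ∀ I ∈ Is, ∀ p ∈ I, p.Prime)
    (hd : Is.Pairwise (fun I J => Disjoint I J)) (g : ℕ → ℝ), ∑ u ∈ PU Is, g u = ∑ u₁ ∈ PU J₁, ∑ u₂ ∈ PU J₂, g (u₁ * u₂)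

def Stmt_PU_mem : Prop := ∀ᶠ T : ℝ in atTop, ∀ J : List (Finset ℕ), J.Sublist (IF T) → ∀ u ∈ PU J,
    Squarefree u ∧ u.primeFactors.card = J.length ∧ J.length ≤ 7 ∧ (∀ p : ℕ, p.Prime → p ∣ u → T ^ (1 / 100 : ℝ) < p) ∧
      (u : ℝ) ≤ T ^ (1 / 2 + 1 / 2000000 : ℝ) ∧ (J ≠ IF T → (u : ℝ) ≤ T ^ (491 / 1000 : ℝ))

def Stmt_UU_bd : Prop := ∀ {ε : ℝ} (hε : 0 < ε), ∀ᶠ T : ℝ in atTop, ∀ J : List (Finset ℕ), J.Sublist (IF T) → ∀ n : ℤ, n ≠ 0 → |(n : ℝ)| ≤ T ^ 2 →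
    |UU J n| ≤ T ^ ε

def Stmt_UU_zero : Prop := ∀ᶠ T : ℝ in atTop, ∀ J : List (Finset ℕ), J.Sublist (IF T) → |UU J 0| ≤ T ^ (51 / 100 : ℝ)

def Stmt_UP : Prop := ∀ᶠ T : ℝ in atTop, ∀ J : List (Finset ℕ), J.Sublist (IF T) → J ≠ [] → ∀ (k : ℤ) (M L M₀ L₀ : ℕ) (α β : ℕ → ℝ), k ≠ 0 →
    |(k : ℝ)| ≤ T ^ (1 / 1000000 : ℝ) → M₀ ≤ M → L₀ ≤ L → (M : ℝ) * L ≤ T ^ (1 + 1 / 1000000 : ℝ) → (∀ m, |α m| ≤ 1) → (∀ l, |β l| ≤ 1) →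
    (∀ l, β l ≠ 0 → l.Prime ∧ T ^ (1 / 2000 : ℝ) ≤ l ∧ (l : ℝ) ≤ T ^ (405 / 1000 : ℝ)) →
    |∑ m ∈ Finset.Ioc M₀ M, ∑ l ∈ Finset.Ioc L₀ L, α m * β l * UU J (m * l + k)| ≤ T ^ (1 - 9 / 10000000 : ℝ)

def Stmt_US : Prop := ∀ᶠ T : ℝ in atTop, ∀ J : List (Finset ℕ), J.Sublist (IF T) → J ≠ [] → ∀ (k : ℤ) (M L M₀ L₀ : ℕ) (α β : ℕ → ℝ), k ≠ 0 →
    |(k : ℝ)| ≤ T ^ (1 / 1000000 : ℝ) → M₀ ≤ M → L₀ ≤ L → (M : ℝ) * L ≤ T ^ (1 + 1 / 1000000 : ℝ) → (∀ m, |α m| ≤ 1) → (∀ l, |β l| ≤ 1) →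
    (∀ l, β l ≠ 0 → Squarefree l ∧ T ^ (1 / 400 : ℝ) < l ∧ (l : ℝ) ≤ T ^ (3 / 1000 : ℝ) ∧ ∀ p : ℕ, p.Prime → p ∣ l → (p : ℝ) ≤ T ^ (1 / 2000 : ℝ)) →
    |∑ m ∈ Finset.Ioc M₀ M, ∑ l ∈ Finset.Ioc L₀ L, α m * β l * UU J (m * l + k)| ≤ T ^ (1 - 6 / 10000 : ℝ)

def Stmt_UT : Prop := ∀ᶠ T : ℝ in atTop, ∀ J : List (Finset ℕ), J.Sublist (IF T) → J ≠ [] → ∀ (k : ℤ) (d b m₀ M₀ M : ℕ), k ≠ 0 →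
    |(k : ℝ)| ≤ T ^ (1 / 1000000 : ℝ) → 1 ≤ d → (d : ℝ) ≤ T ^ 2 → 1 ≤ b → (b : ℝ) ≤ T ^ (1 / 4000000 : ℝ) → M₀ ≤ M →
    |∑ m ∈ (Finset.Ioc M₀ M).filter (fun m => m ≡ m₀ [MOD b]), UU J (d * m + k)| ≤ T ^ (5001 / 10000 : ℝ) + M * T ^ (-(9 / 1000) : ℝ)

def Stmt_UH : Prop := ∀ᶠ T : ℝ in atTop, ∀ J : List (Finset ℕ), J.Sublist (IF T) → J ≠ [] → ∀ (k : ℤ) (b m₀ N₀ N : ℕ) (A A' : ℕ → ℕ) (α : ℕ → ℝ), k ≠ 0 →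
    |(k : ℝ)| ≤ T ^ (1 / 1000000 : ℝ) → 1 ≤ b → (b : ℝ) ≤ T ^ (1 / 4000000 : ℝ) → N₀ ≤ N → T ^ (45 / 100 : ℝ) ≤ N → (N : ℝ) ≤ T ^ (51 / 100 : ℝ) →
    (∀ n, A n ≤ A' n) → (∀ n, (A' n : ℝ) * N ≤ T ^ (1 + 1 / 1000000 : ℝ)) → (∀ n, |α n| ≤ 1) →
    |∑ n ∈ Finset.Ioc N₀ N, α n * ∑ m ∈ (Finset.Ioc (A n) (A' n)).filter (fun m => m ≡ m₀ [MOD b]), UU J (n * m + k)| ≤ T ^ (1 - 6 / 1000 : ℝ)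

def Stmt_BP : Prop := ∀ᶠ T : ℝ in atTop, ∀ (k : ℤ) (M L M₀ L₀ : ℕ) (α β : ℕ → ℝ), k ≠ 0 → |(k : ℝ)| ≤ T ^ (1 / 1000000 : ℝ) → M₀ ≤ M → L₀ ≤ L →
    (M : ℝ) * L ≤ T ^ (1 + 1 / 1000000 : ℝ) → (∀ m, |α m| ≤ 1) → (∀ l, |β l| ≤ 1) →
    (∀ l, β l ≠ 0 → l.Prime ∧ T ^ (1 / 2000 : ℝ) ≤ l ∧ (l : ℝ) ≤ T ^ (405 / 1000 : ℝ)) →
    |∑ m ∈ Finset.Ioc M₀ M, ∑ l ∈ Finset.Ioc L₀ L, α m * β l * bF T (m * l + k)| ≤ T ^ (1 - 1 / 10000000 : ℝ)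

def Stmt_BS : Prop := ∀ᶠ T : ℝ in atTop, ∀ (k : ℤ) (M L M₀ L₀ : ℕ) (α β : ℕ → ℝ), k ≠ 0 → |(k : ℝ)| ≤ T ^ (1 / 1000000 : ℝ) → M₀ ≤ M → L₀ ≤ L →
    (M : ℝ) * L ≤ T ^ (1 + 1 / 1000000 : ℝ) → (∀ m, |α m| ≤ 1) → (∀ l, |β l| ≤ 1) →
    (∀ l, β l ≠ 0 → Squarefree l ∧ T ^ (1 / 400 : ℝ) < l ∧ (l : ℝ) ≤ T ^ (3 / 1000 : ℝ) ∧ ∀ p : ℕ, p.Prime → p ∣ l → (p : ℝ) ≤ T ^ (1 / 2000 : ℝ)) →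
    |∑ m ∈ Finset.Ioc M₀ M, ∑ l ∈ Finset.Ioc L₀ L, α m * β l * bF T (m * l + k)| ≤ T ^ (1 - 59 / 100000 : ℝ)

def Stmt_BT : Prop := ∀ᶠ T : ℝ in atTop, ∀ (k : ℤ) (d M₀ M : ℕ), k ≠ 0 → |(k : ℝ)| ≤ T ^ (1 / 1000000 : ℝ) → 1 ≤ d → (d : ℝ) ≤ T ^ 2 → M₀ ≤ M →
    |∑ m ∈ Finset.Ioc M₀ M, bF T (d * m + k)| ≤ T ^ (5002 / 10000 : ℝ) + M * T ^ (-(8 / 1000) : ℝ)

def Stmt_BH : Prop := ∀ᶠ T : ℝ in atTop, ∀ (k : ℤ) (N₀ N : ℕ) (A A' : ℕ → ℕ) (α : ℕ → ℝ), k ≠ 0 → |(k : ℝ)| ≤ T ^ (1 / 1000000 : ℝ) → N₀ ≤ N →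
    T ^ (45 / 100 : ℝ) ≤ N → (N : ℝ) ≤ T ^ (51 / 100 : ℝ) → (∀ n, A n ≤ A' n) → (∀ n, (A' n : ℝ) * N ≤ T ^ (1 + 1 / 1000000 : ℝ)) →
    (∀ n, |α n| ≤ 1) → |∑ n ∈ Finset.Ioc N₀ N, α n * ∑ m ∈ Finset.Ioc (A n) (A' n), bF T (n * m + k)| ≤ T ^ (1 - 59 / 10000 : ℝ)

def Stmt_FS_Lb2 : Prop := ∃ κ s : ℝ, 0 < κ ∧ 0 < s ∧ FS (fun _ => Lz) bF κ s

def Stmt_FS_b1b2 : Prop := ∀ {κ2 e : ℝ} (h2 : 0 < κ2) (he : 0 < e) (h : κ2 + e < 1 / 2), ∃ κ s : ℝ, 0 < κ ∧ 0 < s ∧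
    FS (fun T => b1 κ2 e T) bF κ s ∧ FS bF (fun T => b1 κ2 e T) κ s

def Stmt_FS_b2b2 : Prop := ∃ κ s : ℝ, 0 < κ ∧ 0 < s ∧ FS bF bF κ s

/-- the lower bound on one piece (block FIN), the input of TILE -/
def PL (c₀ γ : ℝ) : Prop := ∀ (g : TF), (∀ x, 0 ≤ g.h x) → (0 < ∫ x, g.h x) → ∀ (W : ℝ → ℝ) (R : ℝ), PF W R → 0 < R → ∀ θ : ℝ, 0 < θ →
  ∀ᶠ T : ℝ in atTop, ∀ c : ℝ, Real.log T ≤ c → c ≤ (1 + c₀) * Real.log T →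
    (∫ x, g.h x) * ((1 / 2 + γ) * (∫ y, W y ^ 2) - θ) ≤ (∫ t, om g.h T t * ‖AA (sw W c T) T t‖ ^ 2) / T

def Stmt_FIN : Prop := ∃ c₀ γ : ℝ, 0 < c₀ ∧ 0 < γ ∧ PL c₀ γ

end Pool.Agent.AP
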