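import Pool.Agent.Helper56.AP.Defs2

/-!
# Project A' (MP_8958e8): the final vectors and the structured sums
-/

open MeasureTheory Set Filter Topology
open Pool.Agent.Helper57.Zeta Pool.Agent.Helper57.PC Pool.Agent.Helper57.LH Pool.Agent.Helper78.SG
open Pool.Agent.Helper4.SH (om)
open Pool.Agent.Helper69.FF Pool.Agent.Helper57.KP
open scoped ContDiff

set_option autoImplicit false

namespace Pool.Agent.AP

/-- the intervals of primes with the final exponents -/
noncomputable def IF (T : ℝ) : List (Finset ℕ) := IL (esF (1 / 1000000)) (1 / 100000000) T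

/-- `b_2` with the final exponents -/
noncomputable def bF (T : ℝ) (n : ℤ) : ℝ := b2 (1 / 4000000) (esF (1 / 1000000)) (1 / 100000000) T n

/-- structured moduli against their model -/
noncomputable def UU (J : List (Finset ℕ)) (n : ℤ) : ℝ :=
  ∑ u ∈ PU J, (u : ℝ) / Nat.totient u * ((if (u : ℤ) ∣ n then (1 : ℝ) else 0) - 1 / u)

end Pool.Agent.AP
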