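import Pool.Agent.Helper57.KP.Defs

/-!
# Project A' (MP_8958e8): definitions of the vectors b1, b2 (master text /team-store/h56_APRIME.md)
-/

open MeasureTheory Set Filter Topology
open Pool.Agent.Helper57.Zeta Pool.Agent.Helper57.PC Pool.Agent.Helper57.LH Pool.Agent.Helper78.SG
open Pool.Agent.Helper4.SH (om)
open Pool.Agent.Helper69.FF Pool.Agent.Helper57.KP
open scoped ContDiff

set_option autoImplicit false

namespace Pool.Agent.AP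

/-- Ramanujan's sum `c_r(n)` -/
noncomputable def cr (r : ℕ) (n : ℤ) : ℝ :=
  ∑ d ∈ r.divisors, if (d : ℤ) ∣ n then (d : ℝ) * (ArithmeticFunction.moebius (r / d) : ℝ) else 0

/-- `∑_{r ≤ R} (μ(r)/φ(r)) c_r(n)` (`mf r = μ(r)/φ(r)`, file `Helper69/FF/Defs`) -/
noncomputable def lamR (R : ℕ) (n : ℤ) : ℝ := ∑ r ∈ Finset.Icc 1 R, mf r * cr r n

/-- `∑_{r ≤ R, (r,q)=1} μ²(r)/φ(r)` -/
noncomputable def GG (q R : ℕ) : ℝ :=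
  ∑ r ∈ (Finset.Icc 1 R).filter (fun r => Squarefree r ∧ Nat.Coprime r q), (1 : ℝ) / Nat.totient r

/-- the primes in `(T^e, T^(e+v)]` -/
noncomputable def IP (e v T : ℝ) : Finset ℕ :=
  (Finset.Icc 1 ⌊T ^ (e + v)⌋₊).filter (fun p => p.Prime ∧ T ^ e < (p : ℝ))

/-- `c_I = ∑_{p ∈ I} 1/(p-1)` -/
noncomputable def cI (I : Finset ℕ) : ℝ := ∑ p ∈ I, 1 / ((p : ℝ) - 1)

/-- `ω_I(n) = ∑_{p ∈ I, p | n} p/(p-1)` -/
noncomputable def omI (I : Finset ℕ) (n : ℤ) : ℝ := ∑ p ∈ I, if (p : ℤ) ∣ n then (p : ℝ) / ((p : ℝ) - 1) else 0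

/-- `b_2(n) = Λ_B(n) ∏_i (c_i - ω_i(n))` for a list of sets of primes -/
noncomputable def bb (B : ℕ) (Is : List (Finset ℕ)) (n : ℤ) : ℝ := lamR B n * (Is.map fun I => cI I - omI I n).prod

/-- the list of the intervals of primes with exponents `es`, width `v` -/
noncomputable def IL (es : List ℝ) (v T : ℝ) : List (Finset ℕ) := es.map fun e => IP e v T

/-- `b_1`: the moduli `T^κ2 < r ≤ T^(1/2-e)` -/
noncomputable def b1 (κ2 e T : ℝ) (n : ℤ) : ℝ := lamR ⌊T ^ (1 / 2 - e)⌋₊ n - lamR ⌊T ^ κ2⌋₊ n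

/-- `b_2` -/
noncomputable def b2 (c3 : ℝ) (es : List ℝ) (v T : ℝ) (n : ℤ) : ℝ := bb ⌊T ^ c3⌋₊ (IL es v T) n

/-- the weighted sum `∑_n f(n) W(log n - c)^2 / n` -/
noncomputable def Sm (W : ℝ → ℝ) (R c : ℝ) (f : ℕ → ℝ) : ℝ :=
  ∑ n ∈ Finset.Icc 1 ⌊Real.exp (c + R)⌋₊, f n * (W (Real.log n - c) ^ 2 / n)

/-- the Dirichlet polynomial `∑_n a(n) n^(-1/2-it) W(log n - c)` -/
noncomputable def SB (W : ℝ → ℝ) (R c : ℝ) (a : ℕ → ℝ) (t : ℝ) : ℂ :=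
  ∑ n ∈ Finset.Icc 1 ⌊Real.exp (c + R)⌋₊, ((a n / Real.sqrt n * W (Real.log n - c) : ℝ) : ℂ) * xp t n

/-- fixed shifts: `a, a'` (functions of `T` and the integer) have small correlations at all shifts `0 < |k| ≤ T^κ`, sums over
`N₁ < n ≤ N₂`, `T^(9/10) ≤ N₁ ≤ N₂ ≤ T^(1+κ)` -/
def FS (a a' : ℝ → ℤ → ℝ) (κ s : ℝ) : Prop := ∀ᶠ T : ℝ in atTop, ∀ k : ℤ, k ≠ 0 → |(k : ℝ)| ≤ T ^ κ → ∀ N₁ N₂ : ℕ, T ^ (9 / 10 : ℝ) ≤ N₁ →
  (N₂ : ℝ) ≤ T ^ (1 + κ) → |∑ n ∈ Finset.Ioc N₁ N₂, a T n * a' T (n + k)| ≤ T ^ (1 - s)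

/-- `Λ` on the integers -/
noncomputable def Lz (n : ℤ) : ℝ := ArithmeticFunction.vonMangoldt n.toNat

end Pool.Agent.AP
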