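import Pool.Agent.Helper56.AP.Defs

/-!
# Project A' (MP_8958e8): further definitions
-/

open MeasureTheory Set Filter Topology
open Pool.Agent.Helper57.Zeta Pool.Agent.Helper57.PC Pool.Agent.Helper57.LH Pool.Agent.Helper78.SG
open Pool.Agent.Helper4.SH (om)
open Pool.Agent.Helper69.FF Pool.Agent.Helper57.KP
open scoped ContDiff

set_option autoImplicit false

namespace Pool.Agent.AP

/-- exponents -/
structure EX (es : List ℝ) (v c3 D s : ℝ) : Prop where
  D0 : 0 < D
  v0 : 0 < v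
  c0 : 0 < c3
  s0 : 0 < s
  ne : es ≠ []
  ge : ∀ x ∈ es, D ≤ x
  chain : es.Pairwise (fun x y => x + v < y)
  sum : es.sum = 1 / 2 + s
  small : es.length * v + c3 + s ≤ D / 8

/-- the products `∏ p_i`, one prime from each set -/
def PU : List (Finset ℕ) → Finset ℕ
  | [] => {1}
  | I :: Is => (I ×ˢ PU Is).image fun x => x.1 * x.2

/-- `ξ_b`: `Λ_B(n) = ∑_{b ≤ B, b | n} ξ_b` -/
noncomputable def xi (B b : ℕ) : ℝ := (b : ℝ) * mf b * GG b (B / b)

/-- `∑_{r ≤ R, (r,q) = 1} (μ(r)/φ(r)) c_r(n)` -/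
noncomputable def lamQ (q R : ℕ) (n : ℤ) : ℝ := ∑ r ∈ (Finset.Icc 1 R).filter (fun r => Nat.Coprime r q), mf r * cr r n

/-- the final choice of the exponents (7 primes), helper57's list -/
noncomputable def esF (δ : ℝ) : List ℝ := [1 / 100, 2 / 100, 4 / 100, 6 / 100 + δ / 4, 8 / 100, 13 / 100, 16 / 100]

end Pool.Agent.AP
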