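import Pool.Agent.Helper56.AP.Stmts

/-!
# Project A' (MP_8958e8), block FIN: the number (section 2 of the master text)
-/

open MeasureTheory Set Filter Topology
open Pool.Agent.Helper57.Zeta Pool.Agent.Helper57.PC Pool.Agent.Helper57.LH Pool.Agent.Helper78.SG
open Pool.Agent.Helper4.SH (om)
open Pool.Agent.Helper69.FF Pool.Agent.Helper57.KP
open scoped ContDiff

set_option autoImplicit false

namespace Pool.Agent.AP

theorem FS_mono {a a' : ℝ → ℤ → ℝ} {κ s κ' s' : ℝ} (h : FS a a' κ s) (hκ : κ' ≤ κ) (hs : s' ≤ s) : FS a a' κ' s' := by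
  unfold FS at h ⊢
  filter_upwards [h, eventually_ge_atTop (1:ℝ)] with T hT hT1 k hk hkT N₁ N₂ hN₁ hN₂
  refine (hT k hk (hkT.trans (Real.rpow_le_rpow_of_exponent_le hT1 hκ)) N₁ N₂ hN₁
    (hN₂.trans (Real.rpow_le_rpow_of_exponent_le hT1 (by linarith)))).trans (Real.rpow_le_rpow_of_exponent_le hT1 (by linarith))

/-- relation of `AA` and `SB` -/
private theorem AA_SB {W : ℝ → ℝ} {R : ℝ} (hW : PF W R) {c T : ℝ} (hL : 0 < Real.log T) (hc : Real.exp (c + R) ≤ T ^ 2) (t : ℝ) :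
    ((Real.sqrt (Real.log T) : ℝ) : ℂ) * AA (sw W c T) T t = SB W R c (fun n => ArithmeticFunction.vonMangoldt n) t := by
  have h1 : ((Real.sqrt (Real.log T) : ℝ) : ℂ) * AA (sw W c T) T t = ∑ n ∈ Finset.Icc 1 ⌊T ^ 2⌋₊,
      ((ArithmeticFunction.vonMangoldt n / Real.sqrt n * W (Real.log n - c) : ℝ) : ℂ) * xp t n := by
    unfold AA
    rw [Finset.mul_sum]
    refine Finset.sum_congr rfl fun n _ => ?_
    rw [← mul_assoc, ← Complex.ofReal_mul]
    congr 2
    unfold sw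
    have e1 : Real.log T * (Real.log n / Real.log T) - c = Real.log n - c := by
      field_simp
    rw [e1]
    have e2 : Real.sqrt (Real.log T) * Real.sqrt (Real.log T) = Real.log T := Real.mul_self_sqrt hL.le
    calc Real.sqrt (Real.log T) * (ArithmeticFunction.vonMangoldt n / Real.sqrt n * (Real.sqrt (Real.log T) * W (Real.log n - c)) / Real.log T)
        = ArithmeticFunction.vonMangoldt n / Real.sqrt n * W (Real.log n - c) * ((Real.sqrt (Real.log T) * Real.sqrt (Real.log T)) / Real.log T) := by ring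
      _ = ArithmeticFunction.vonMangoldt n / Real.sqrt n * W (Real.log n - c) := by rw [e2, div_self hL.ne', mul_one]
  rw [h1]
  unfold SB
  symm
  refine Finset.sum_subset (Finset.Icc_subset_Icc_right (Nat.floor_le_floor hc)) ?_
  intro n hn hn'
  have h2 : ⌊Real.exp (c + R)⌋₊ < n := by
    rw [Finset.mem_Icc] at hn hn'
    by_contra h
    exact hn' ⟨hn.1, by omega⟩
  have h3 : Real.exp (c + R) < n := (Nat.floor_lt (Real.exp_pos _).le).mp h2
  have h4 : c + R < Real.log n := by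
    rw [Real.lt_log_iff_exp_lt (by exact lt_trans (Real.exp_pos _) h3)]
    exact h3
  have h5 : W (Real.log n - c) = 0 := by
    by_contra h
    have := (abs_le.mp (hW.supp _ h)).2
    linarith
  rw [h5]
  simp

private theorem SB_cont (W : ℝ → ℝ) (R c : ℝ) (a : ℕ → ℝ) : Continuous (fun t : ℝ => SB W R c a t) := by
  unfold SB
  refine continuous_finsetSum _ fun n _ => continuous_const.mul ?_
  unfold xp
  fun_prop

private theorem om_cont (g : TF) (T : ℝ) : Continuous (fun t : ℝ => om g.h T t) := by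
  unfold Pool.Agent.Helper4.SH.om
  have := g.smooth.continuous
  fun_prop

private theorem om_cs (g : TF) {T : ℝ} (hT : 0 < T) : HasCompactSupport (fun t : ℝ => om g.h T t) := by
  refine HasCompactSupport.intro (isCompact_Icc (a := T * (1 / 2 - g.th)) (b := T * (1 / 2 + g.th))) fun t ht => ?_
  show om g.h T t = 0
  unfold Pool.Agent.Helper4.SH.om
  refine g.supp _ ?_
  by_contra h
  rw [not_le, abs_lt] at h
  apply ht
  have h1 : t = T * (t / T) := by field_simp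
  constructor
  · rw [h1]; exact mul_le_mul_of_nonneg_left (by linarith [h.1]) hT.le
  · rw [h1]; exact mul_le_mul_of_nonneg_left (by linarith [h.2]) hT.le

private theorem om_int (g : TF) {T : ℝ} (hT : 0 < T) {F : ℝ → ℝ} (hF : Continuous F) :
    Integrable (fun t : ℝ => om g.h T t * F t) := by
  have hc : Continuous (fun t : ℝ => om g.h T t * F t) := (om_cont g T).mul hF
  have hs : HasCompactSupport (fun t : ℝ => om g.h T t * F t) := (om_cs g hT).mul_right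
  exact hc.integrable_of_hasCompactSupport hs

/-- the only inequality -/
private theorem only (g : TF) (hg0 : ∀ x, 0 ≤ g.h x) {T : ℝ} (hT : 0 < T) (W : ℝ → ℝ) (R c : ℝ) (a b : ℕ → ℝ) :
    2 * (∫ t, om g.h T t * (SB W R c a t * (starRingEnd ℂ) (SB W R c b t)).re) -
      (∫ t, om g.h T t * (SB W R c b t * (starRingEnd ℂ) (SB W R c b t)).re) ≤ ∫ t, om g.h T t * ‖SB W R c a t‖ ^ 2 := by
  have c1 := SB_cont W R c a
  have c2 := SB_cont W R c b
  have i1 : Integrable (fun t => om g.h T t * (SB W R c a t * (starRingEnd ℂ) (SB W R c b t)).re) :=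
    om_int g hT (Complex.continuous_re.comp (c1.mul (Complex.continuous_conj.comp c2)))
  have i2 : Integrable (fun t => om g.h T t * (SB W R c b t * (starRingEnd ℂ) (SB W R c b t)).re) :=
    om_int g hT (Complex.continuous_re.comp (c2.mul (Complex.continuous_conj.comp c2)))
  have i3 : Integrable (fun t => om g.h T t * ‖SB W R c a t‖ ^ 2) := om_int g hT (c1.norm.pow 2)
  rw [← integral_const_mul, ← integral_sub (i1.const_mul 2) i2]
  refine integral_mono ((i1.const_mul 2).sub i2) i3 fun t => ?_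
  show 2 * (om g.h T t * (SB W R c a t * (starRingEnd ℂ) (SB W R c b t)).re) -
    om g.h T t * (SB W R c b t * (starRingEnd ℂ) (SB W R c b t)).re ≤ om g.h T t * ‖SB W R c a t‖ ^ 2
  have hom : 0 ≤ om g.h T t := hg0 _
  have key : 2 * (SB W R c a t * (starRingEnd ℂ) (SB W R c b t)).re - (SB W R c b t * (starRingEnd ℂ) (SB W R c b t)).re ≤
      ‖SB W R c a t‖ ^ 2 := by
    generalize SB W R c a t = A
    generalize SB W R c b t = B
    simp only [← Complex.normSq_eq_norm_sq, Complex.normSq_apply, Complex.mul_re, Complex.conj_re, Complex.conj_im]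
    nlinarith [sq_nonneg (A.re - B.re), sq_nonneg (A.im - B.im)]
  calc 2 * (om g.h T t * (SB W R c a t * (starRingEnd ℂ) (SB W R c b t)).re) -
      om g.h T t * (SB W R c b t * (starRingEnd ℂ) (SB W R c b t)).re
      = om g.h T t * (2 * (SB W R c a t * (starRingEnd ℂ) (SB W R c b t)).re - (SB W R c b t * (starRingEnd ℂ) (SB W R c b t)).re) := by ring
    _ ≤ om g.h T t * ‖SB W R c a t‖ ^ 2 := mul_le_mul_of_nonneg_left key hom

/-- linearity of `Sm` -/
private theorem Sm_add (W : ℝ → ℝ) (R c : ℝ) (f g : ℕ → ℝ) : Sm W R c (fun n => f n + g n) = Sm W R c f + Sm W R c g := by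
  unfold Sm
  rw [← Finset.sum_add_distrib]
  exact Finset.sum_congr rfl fun n _ => by ring

private theorem Sm_smul (W : ℝ → ℝ) (R c x : ℝ) (f : ℕ → ℝ) : Sm W R c (fun n => x * f n) = x * Sm W R c f := by
  unfold Sm
  rw [Finset.mul_sum]
  exact Finset.sum_congr rfl fun n _ => by ring

/-- the coefficient `λ` -/
noncomputable def lamT (T : ℝ) : ℝ := ((esF (1 / 1000000)).map fun x => 1 / (cI (IP x (1 / 100000000) T) + 8 / x)).prod

/-- the vector `b = b_1 + λ b_2`, `κ_2 = e` -/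
noncomputable def bt (e T : ℝ) (n : ℤ) : ℝ := b1 e e T n + lamT T * bF T n

private theorem cI_nonneg (x v T : ℝ) : 0 ≤ cI (IP x v T) := by
  unfold cI
  refine Finset.sum_nonneg fun p hp => ?_
  unfold IP at hp
  have h2 : 2 ≤ p := (Finset.mem_filter.1 hp).2.1.two_le
  have h3 : (2:ℝ) ≤ p := by exact_mod_cast h2
  exact div_nonneg zero_le_one (by linarith)

private theorem esF_mem {x : ℝ} (hx : x ∈ esF (1 / 1000000)) : 0 < x ∧ x ≤ 1 := by
  unfold esF at hx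
  simp only [List.mem_cons, List.not_mem_nil, or_false] at hx
  rcases hx with h | h | h | h | h | h | h <;> subst h <;> constructor <;> norm_num

private theorem prod_bd {l : List ℝ} {f : ℝ → ℝ} (h : ∀ x ∈ l, 0 ≤ f x ∧ f x ≤ 1) : 0 ≤ (l.map f).prod ∧ (l.map f).prod ≤ 1 := by
  induction l with
  | nil => simp
  | cons a t ih =>
    have h1 := h a (by simp)
    have h2 := ih fun x hx => h x (by simp [hx])
    rw [List.map_cons, List.prod_cons]
    exact ⟨mul_nonneg h1.1 h2.1, mul_le_one₀ h1.2 h2.1 h2.2⟩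

private theorem lamT_bd (T : ℝ) : 0 ≤ lamT T ∧ lamT T ≤ 1 := by
  unfold lamT
  refine prod_bd fun x hx => ?_
  obtain ⟨h0, h1⟩ := esF_mem hx
  have h2 := cI_nonneg x (1 / 100000000) T
  have h3 : 1 ≤ 8 / x := by
    rw [le_div_iff₀ h0]
    linarith
  refine ⟨div_nonneg zero_le_one (by linarith), ?_⟩
  rw [div_le_one (by linarith)]
  linarith

/-- `λ P = ∏ c/(c + 8/e)`, `λ Q = P` -/
private theorem lam_alg (T : ℝ) :
    lamT T * ((IL (esF (1 / 1000000)) (1 / 100000000) T).map cI).prod =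
      ((esF (1 / 1000000)).map fun x => cI (IP x (1 / 100000000) T) / (cI (IP x (1 / 100000000) T) + 8 / x)).prod ∧
    lamT T * ((esF (1 / 1000000)).map fun x => cI (IP x (1 / 100000000) T) * (cI (IP x (1 / 100000000) T) + 8 / x)).prod =
      ((IL (esF (1 / 1000000)) (1 / 100000000) T).map cI).prod := by
  constructor
  · unfold lamT IL
    rw [List.map_map, ← List.prod_map_mul]
    congr 1
    refine List.map_congr_left fun x _ => ?_
    show 1 / (cI (IP x (1 / 100000000) T) + 8 / x) * cI (IP x (1 / 100000000) T) = _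
    ring
  · unfold lamT IL
    rw [List.map_map, ← List.prod_map_mul]
    congr 1
    refine List.map_congr_left fun x hx => ?_
    show 1 / (cI (IP x (1 / 100000000) T) + 8 / x) * (cI (IP x (1 / 100000000) T) * (cI (IP x (1 / 100000000) T) + 8 / x)) = cI (IP x (1 / 100000000) T)
    have h0 := (esF_mem hx).1
    have h2 := cI_nonneg x (1 / 100000000) T
    have h3 : 0 < cI (IP x (1 / 100000000) T) + 8 / x := by positivity
    field_simp

/-- all fixed shifts for `b` -/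
private theorem fs_all (hL1 : Stmt_FS_Lb1) (hL2 : Stmt_FS_Lb2) (h11 : Stmt_FS_b1b1) (h12 : Stmt_FS_b1b2) (h22 : Stmt_FS_b2b2)
    {e : ℝ} (he : 0 < e) (he2 : e + e < 1 / 2) : ∃ κ s : ℝ, 0 < κ ∧ κ ≤ 1 / 4 ∧ 6 * κ ≤ s ∧
      FS (fun _ => Lz) (fun T => bt e T) κ s ∧ FS (fun T => bt e T) (fun T => bt e T) κ s := by
  obtain ⟨κ1, s1, hκ1, hs1, f1⟩ := hL1 he he he2
  obtain ⟨κ2, s2, hκ2, hs2, f2⟩ := hL2
  obtain ⟨κ3, s3, hκ3, hs3, f3⟩ := h11 he he he2
  obtain ⟨κ4, s4, hκ4, hs4, f4, f4'⟩ := h12 he he he2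
  obtain ⟨κ5, s5, hκ5, hs5, f5⟩ := h22
  obtain ⟨s, hs, hs'⟩ : ∃ s : ℝ, 0 < s ∧ s ≤ s1 ∧ s ≤ s2 ∧ s ≤ s3 ∧ s ≤ s4 ∧ s ≤ s5 :=
    ⟨min s1 (min s2 (min s3 (min s4 s5))), by positivity, by simp, by simp, by simp, by simp, by simp⟩
  obtain ⟨κ, hκ, hκ4', hκs, hκ'⟩ : ∃ κ : ℝ, 0 < κ ∧ κ ≤ 1 / 4 ∧ κ ≤ s / 12 ∧ κ ≤ κ1 ∧ κ ≤ κ2 ∧ κ ≤ κ3 ∧ κ ≤ κ4 ∧ κ ≤ κ5 :=
    ⟨min (1 / 4) (min (s / 12) (min κ1 (min κ2 (min κ3 (min κ4 κ5))))), by positivity, by simp, by simp, by simp, by simp, by simp, by simp, by simp⟩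
  have g1 := FS_mono f1 hκ'.1 hs'.1
  have g2 := FS_mono f2 hκ'.2.1 hs'.2.1
  have g3 := FS_mono f3 hκ'.2.2.1 hs'.2.2.1
  have g4 := FS_mono f4 hκ'.2.2.2.1 hs'.2.2.2.1
  have g4' := FS_mono f4' hκ'.2.2.2.1 hs'.2.2.2.1
  have g5 := FS_mono f5 hκ'.2.2.2.2 hs'.2.2.2.2
  have hbig : ∀ᶠ T : ℝ in atTop, 4 * T ^ (1 - s) ≤ T ^ (1 - s / 2) := by
    have h1 : Tendsto (fun T : ℝ => T ^ (s / 2)) atTop atTop := tendsto_rpow_atTop (by linarith)
    filter_upwards [h1.eventually_ge_atTop 4, eventually_gt_atTop (0:ℝ)] with T h2 h3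
    have h4 : T ^ (1 - s / 2) = T ^ (s / 2) * T ^ (1 - s) := by
      rw [← Real.rpow_add h3]
      congr 1
      ring
    rw [h4]
    exact mul_le_mul_of_nonneg_right h2 (Real.rpow_nonneg h3.le _)
  refine ⟨κ, s / 2, hκ, hκ4', by linarith, ?_, ?_⟩
  · unfold FS at g1 g2 ⊢
    filter_upwards [g1, g2, hbig, eventually_ge_atTop (1:ℝ)] with T t1 t2 hb hT k hk hkT N₁ N₂ hN₁ hN₂
    have q1 := t1 k hk hkT N₁ N₂ hN₁ hN₂
    have q2 := t2 k hk hkT N₁ N₂ hN₁ hN₂
    obtain ⟨l0, l1⟩ := lamT_bd T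
    have hP : 0 ≤ T ^ (1 - s) := Real.rpow_nonneg (by linarith) _
    have e1 : ∑ n ∈ Finset.Ioc N₁ N₂, Lz n * bt e T (n + k) =
        ∑ n ∈ Finset.Ioc N₁ N₂, Lz n * b1 e e T (n + k) + lamT T * ∑ n ∈ Finset.Ioc N₁ N₂, Lz n * bF T (n + k) := by
      rw [Finset.mul_sum, ← Finset.sum_add_distrib]
      refine Finset.sum_congr rfl fun n _ => ?_
      unfold bt
      ring
    show |∑ n ∈ Finset.Ioc N₁ N₂, Lz n * bt e T (n + k)| ≤ _
    rw [e1]
    have q3 : |lamT T * ∑ n ∈ Finset.Ioc N₁ N₂, Lz n * bF T (n + k)| ≤ T ^ (1 - s) := by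
      rw [abs_mul, abs_of_nonneg l0]
      exact (mul_le_of_le_one_left (abs_nonneg _) l1).trans q2
    calc |∑ n ∈ Finset.Ioc N₁ N₂, Lz n * b1 e e T (n + k) + lamT T * ∑ n ∈ Finset.Ioc N₁ N₂, Lz n * bF T (n + k)|
        ≤ T ^ (1 - s) + T ^ (1 - s) := (abs_add_le _ _).trans (add_le_add q1 q3)
      _ ≤ 4 * T ^ (1 - s) := by linarith
      _ ≤ T ^ (1 - s / 2) := hb
  · unfold FS at g3 g4 g4' g5 ⊢
    filter_upwards [g3, g4, g4', g5, hbig, eventually_ge_atTop (1:ℝ)] with T t3 t4 t4' t5 hb hT k hk hkT N₁ N₂ hN₁ hN₂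
    have q3 := t3 k hk hkT N₁ N₂ hN₁ hN₂
    have q4 := t4 k hk hkT N₁ N₂ hN₁ hN₂
    have q4' := t4' k hk hkT N₁ N₂ hN₁ hN₂
    have q5 := t5 k hk hkT N₁ N₂ hN₁ hN₂
    obtain ⟨l0, l1⟩ := lamT_bd T
    have e1 : ∑ n ∈ Finset.Ioc N₁ N₂, bt e T n * bt e T (n + k) =
        ∑ n ∈ Finset.Ioc N₁ N₂, b1 e e T n * b1 e e T (n + k) + lamT T * ∑ n ∈ Finset.Ioc N₁ N₂, b1 e e T n * bF T (n + k) +
        lamT T * ∑ n ∈ Finset.Ioc N₁ N₂, bF T n * b1 e e T (n + k) +
        (lamT T * lamT T) * ∑ n ∈ Finset.Ioc N₁ N₂, bF T n * bF T (n + k) := by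
      rw [Finset.mul_sum, Finset.mul_sum, Finset.mul_sum, ← Finset.sum_add_distrib, ← Finset.sum_add_distrib, ← Finset.sum_add_distrib]
      refine Finset.sum_congr rfl fun n _ => ?_
      unfold bt
      ring
    show |∑ n ∈ Finset.Ioc N₁ N₂, bt e T n * bt e T (n + k)| ≤ _
    rw [e1]
    have r4 : |lamT T * ∑ n ∈ Finset.Ioc N₁ N₂, b1 e e T n * bF T (n + k)| ≤ T ^ (1 - s) := by
      rw [abs_mul, abs_of_nonneg l0]
      exact (mul_le_of_le_one_left (abs_nonneg _) l1).trans q4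
    have r4' : |lamT T * ∑ n ∈ Finset.Ioc N₁ N₂, bF T n * b1 e e T (n + k)| ≤ T ^ (1 - s) := by
      rw [abs_mul, abs_of_nonneg l0]
      exact (mul_le_of_le_one_left (abs_nonneg _) l1).trans q4'
    have r5 : |(lamT T * lamT T) * ∑ n ∈ Finset.Ioc N₁ N₂, bF T n * bF T (n + k)| ≤ T ^ (1 - s) := by
      rw [abs_mul, abs_of_nonneg (mul_nonneg l0 l0)]
      exact (mul_le_of_le_one_left (abs_nonneg _) (mul_le_one₀ l1 l0 l1)).trans q5
    refine ((abs_add_le _ _).trans (add_le_add ((abs_add_le _ _).trans (add_le_add ((abs_add_le _ _).trans (add_le_add q3 r4)) r4')) r5)).trans ?_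
    calc T ^ (1 - s) + T ^ (1 - s) + T ^ (1 - s) + T ^ (1 - s) = 4 * T ^ (1 - s) := by ring
      _ ≤ T ^ (1 - s / 2) := hb

/-- pointwise bounds -/
private theorem bt_bd (hb1 : Stmt_b1_bd) (hb2 : Stmt_b2_bd) (hEX : Stmt_EXF) {e ε : ℝ} (he : 0 < e) (he1 : e ≤ 1) (hε : 0 < ε) :
    ∀ᶠ T : ℝ in atTop, ∀ n : ℤ, 1 ≤ n → (n : ℝ) ≤ T ^ 2 → |bt e T n| ≤ T ^ ε := by
  have h1 := hb1 (κ2 := e) (e := e) (ε := ε / 2) he.le he1 he.le (by linarith)
  have h2 := hb2 (ε := ε / 2) hEX (by linarith)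
  have hbig : ∀ᶠ T : ℝ in atTop, 2 * T ^ (ε / 2) ≤ T ^ ε := by
    have h1 : Tendsto (fun T : ℝ => T ^ (ε / 2)) atTop atTop := tendsto_rpow_atTop (by linarith)
    filter_upwards [h1.eventually_ge_atTop 2, eventually_gt_atTop (0:ℝ)] with T h2 h3
    have h4 : T ^ ε = T ^ (ε / 2) * T ^ (ε / 2) := by
      rw [← Real.rpow_add h3]
      congr 1
      ring
    rw [h4]
    exact mul_le_mul_of_nonneg_right h2 (Real.rpow_nonneg h3.le _)
  filter_upwards [h1, h2, hbig] with T t1 t2 hb n hn hnT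
  have hn0 : n ≠ 0 := by omega
  have hnn : |(n : ℝ)| ≤ T ^ 2 := by
    rw [abs_of_nonneg (by exact_mod_cast (by omega : (0:ℤ) ≤ n))]
    exact hnT
  have q1 := t1 n hn0 hnn
  have q2 := t2 n hn0 hnn
  obtain ⟨l0, l1⟩ := lamT_bd T
  unfold bt
  have q3 : |lamT T * bF T n| ≤ T ^ (ε / 2) := by
    rw [abs_mul, abs_of_nonneg l0]
    exact (mul_le_of_le_one_left (abs_nonneg _) l1).trans q2
  calc |b1 e e T n + lamT T * bF T n| ≤ T ^ (ε / 2) + T ^ (ε / 2) := (abs_add_le _ _).trans (add_le_add q1 q3)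
    _ = 2 * T ^ (ε / 2) := by ring
    _ ≤ T ^ ε := hb

private theorem Lz_bd {ε : ℝ} (hε : 0 < ε) : ∀ᶠ T : ℝ in atTop, ∀ n : ℤ, 1 ≤ n → (n : ℝ) ≤ T ^ 2 → |Lz n| ≤ T ^ ε := by
  have h1 : (fun T : ℝ => Real.log T) =o[atTop] fun T : ℝ => T ^ ε := isLittleO_log_rpow_atTop hε
  have h2 := h1.bound (by norm_num : (0:ℝ) < 1 / 2)
  filter_upwards [h2, eventually_ge_atTop (1:ℝ)] with T h3 hT n hn hnT
  have hL : 0 ≤ Real.log T := Real.log_nonneg hT
  rw [Real.norm_of_nonneg hL, Real.norm_of_nonneg (Real.rpow_nonneg (by linarith) _)] at h3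
  unfold Lz
  rw [abs_of_nonneg ArithmeticFunction.vonMangoldt_nonneg]
  have h4 : ((n.toNat : ℕ) : ℝ) = (n : ℝ) := by
    have : ((n.toNat : ℤ)) = n := Int.toNat_of_nonneg (by omega)
    exact_mod_cast this
  have hn1 : (1:ℝ) ≤ n := by exact_mod_cast hn
  calc ArithmeticFunction.vonMangoldt n.toNat ≤ Real.log n.toNat := ArithmeticFunction.vonMangoldt_le_log
    _ = Real.log n := by rw [h4]
    _ ≤ Real.log (T ^ 2) := Real.log_le_log (by linarith) hnT
    _ = 2 * Real.log T := by rw [Real.log_pow]; push_cast; ring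
    _ ≤ T ^ ε := by linarith

/-- the arithmetic of the main terms -/
private theorem arith {V L G1 G0 GB P Q lam pr g pin C' C₃ ε1 θ e SL1 SL2 S11 S12 S22 : ℝ} (hV : 0 ≤ V) (hL : 0 < L)
    (h1 : |SL1 - V * (G1 - G0)| ≤ ε1 * L) (h2 : |SL2 - V * (GB * P)| ≤ ε1 * L) (h3 : |S11 - V * (G1 - G0)| ≤ ε1 * L)
    (h4 : |S12| ≤ ε1 * L) (h5 : S22 ≤ V * (GB * Q) + ε1 * L) (l0 : 0 ≤ lam) (l1 : lam ≤ 1) (hP : lam * P = pr) (hQ : lam * Q = P)
    (hG : (1 / 2 - 2 * e) * L - C' ≤ G1 - G0) (hGB : C₃ * L - 1 ≤ GB) (hGB0 : 1 ≤ C₃ * L) (hpr : 7 / 8 * pin ≤ pr) (hpr1 : pr ≤ 1) (hp : 0 < pin)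
    (hg : g = C₃ * pin) (he : e = g / 8) (hε : ε1 = θ / 16) (hθ : 0 < θ) (hLb : 8 * (C' + 1) ≤ g * L) :
    L * ((1 / 2 + g / 2) * V - θ / 2) ≤ 2 * (SL1 + lam * SL2) - (S11 + 2 * lam * S12 + lam ^ 2 * S22) := by
  have a1 := (abs_le.1 h1).1
  have a2 := (abs_le.1 h2).1
  have a3 := (abs_le.1 h3).2
  have a4 := (abs_le.1 h4).2
  have hεL : 0 ≤ ε1 * L := by
    rw [hε]
    positivity
  -- λ-terms
  have b2 : lam * (V * (GB * P)) - ε1 * L ≤ lam * SL2 := by
    have : lam * (V * (GB * P) - ε1 * L) ≤ lam * SL2 := mul_le_mul_of_nonneg_left (by linarith) l0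
    have h6 : lam * (ε1 * L) ≤ ε1 * L := mul_le_of_le_one_left hεL l1
    nlinarith
  have b4 : lam * S12 ≤ ε1 * L := by
    have h6 : lam * S12 ≤ lam * (ε1 * L) := mul_le_mul_of_nonneg_left a4 l0
    have h7 : lam * (ε1 * L) ≤ ε1 * L := mul_le_of_le_one_left hεL l1
    linarith
  have b5 : lam ^ 2 * S22 ≤ lam ^ 2 * (V * (GB * Q)) + ε1 * L := by
    have h6 : lam ^ 2 * S22 ≤ lam ^ 2 * (V * (GB * Q) + ε1 * L) := mul_le_mul_of_nonneg_left h5 (sq_nonneg _)
    have h7 : lam ^ 2 * (ε1 * L) ≤ ε1 * L := mul_le_of_le_one_left hεL (pow_le_one₀ l0 l1)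
    nlinarith
  have e1 : lam * (V * (GB * P)) = V * GB * pr := by rw [← hP]; ring
  have e2 : lam ^ 2 * (V * (GB * Q)) = V * GB * pr := by
    have : lam ^ 2 * (V * (GB * Q)) = V * GB * (lam * (lam * Q)) := by ring
    rw [this, hQ, hP]
  rw [e1] at b2
  rw [e2] at b5
  have hpr0 : 0 ≤ pr := le_trans (by positivity) hpr
  have c1 : (C₃ * L - 1) * pr ≤ GB * pr := mul_le_mul_of_nonneg_right hGB hpr0
  have c2 : (C₃ * L - 1) * (7 / 8 * pin) ≤ (C₃ * L - 1) * pr := mul_le_mul_of_nonneg_left hpr (by linarith)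
  have hp1 : 7 / 8 * pin ≤ 1 := hpr.trans hpr1
  have c3 : C₃ * L * (7 / 8 * pin) - 1 ≤ GB * pr := by nlinarith
  have c4 : 7 / 8 * (g * L) - 1 ≤ GB * pr := by
    have : C₃ * L * (7 / 8 * pin) = 7 / 8 * (g * L) := by rw [hg]; ring
    linarith
  have c5 : (1 / 2 + g / 2) * L ≤ (G1 - G0) + GB * pr := by
    rw [he] at hG
    nlinarith
  have c6 : V * ((1 / 2 + g / 2) * L) ≤ V * ((G1 - G0) + GB * pr) := mul_le_mul_of_nonneg_left c5 hV
  rw [hε] at a1 a2 a3 a4 b2 b4 b5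
  nlinarith

/-- the integrals in terms of the sums -/
theorem FIN (hopen : Stmt_openB) (hb1 : Stmt_b1_bd) (hb2 : Stmt_b2_bd) (hGG : Stmt_GG_bd) (hcI : Stmt_cI_lim) (hEX : Stmt_EXF)
    (k1 : Stmt_K0a1) (k2 : Stmt_K0a2) (kb : Stmt_K0b) (kc : Stmt_K0c) (kd : Stmt_K0d)
    (hL1 : Stmt_FS_Lb1) (hL2 : Stmt_FS_Lb2) (h11 : Stmt_FS_b1b1) (h12 : Stmt_FS_b1b2) (h22 : Stmt_FS_b2b2) : Stmt_FIN := by
  -- the limit
  obtain ⟨pin, hpin⟩ : ∃ pin : ℝ, pin = ((esF (1 / 1000000)).map fun x => Real.log (1 + (1 / 100000000) / x) /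
      (Real.log (1 + (1 / 100000000) / x) + 8 / x)).prod := ⟨_, rfl⟩
  have hlogpos : ∀ x ∈ esF (1 / 1000000), 0 < Real.log (1 + (1 / 100000000) / x) := by
    intro x hx
    have h0 := (esF_mem hx).1
    refine Real.log_pos ?_
    have : (0:ℝ) < (1 / 100000000) / x := by positivity
    linarith
  have hp0 : 0 < pin := by
    rw [hpin]
    refine List.prod_pos ?_
    intro y hy
    rw [List.mem_map] at hy
    obtain ⟨x, hx, rfl⟩ := hy
    have h0 := (esF_mem hx).1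
    have h1 := hlogpos x hx
    positivity
  have hp1 : pin ≤ 1 := by
    rw [hpin]
    refine (prod_bd fun x hx => ?_).2
    have h0 := (esF_mem hx).1
    have h1 := hlogpos x hx
    have h2 : 0 < 8 / x := by positivity
    refine ⟨by positivity, ?_⟩
    rw [div_le_one (by positivity)]
    linarith
  have hlim : Tendsto (fun T : ℝ => ((esF (1 / 1000000)).map fun x => cI (IP x (1 / 100000000) T) / (cI (IP x (1 / 100000000) T) + 8 / x)).prod)
      atTop (𝓝 pin) := by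
    rw [hpin]
    refine tendsto_list_prod _ fun x hx => ?_
    have h0 := (esF_mem hx).1
    have h1 := hlogpos x hx
    have h2 := hcI (e := x) (v := 1 / 100000000) h0 (by norm_num)
    have h3 : 0 < 8 / x := by positivity
    exact h2.div (h2.add_const _) (by positivity)
  obtain ⟨g₀, hg₀⟩ : ∃ g₀ : ℝ, g₀ = 1 / 4000000 * pin := ⟨_, rfl⟩
  have hg0 : 0 < g₀ := by rw [hg₀]; positivity
  have hg1 : g₀ ≤ 1 / 4000000 := by rw [hg₀]; nlinarith
  obtain ⟨e, he⟩ : ∃ e : ℝ, e = g₀ / 8 := ⟨_, rfl⟩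
  have he0 : 0 < e := by rw [he]; positivity
  have he1 : e ≤ 1 / 4000000 / 4 := by rw [he]; linarith
  obtain ⟨κ, s, hκ, hκ1, hκs, fL, fb⟩ := fs_all hL1 hL2 h11 h12 h22 he0 (by linarith)
  obtain ⟨C, hC, hGGb⟩ := hGG
  have hs16 : (0:ℝ) < min (κ / 4) (1 / 4000000 / 4) := by positivity
  refine ⟨min (κ / 4) (1 / 4000000 / 4), g₀ / 2, hs16, by positivity, ?_⟩
  intro g hgn hgI W R hW hR θ hθ
  obtain ⟨V, hV⟩ : ∃ V : ℝ, V = ∫ y, W y ^ 2 := ⟨_, rfl⟩
  obtain ⟨G, hG⟩ : ∃ G : ℝ, G = ∫ x, g.h x := ⟨_, rfl⟩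
  rw [← hG] at hgI ⊢
  rw [← hV]
  have hV0 : 0 ≤ V := by rw [hV]; exact integral_nonneg fun y => sq_nonneg _
  have hε : 0 < θ / 16 := by positivity
  have hLtop : Tendsto Real.log atTop atTop := Real.tendsto_log_atTop
  have ev1 : ∀ᶠ T : ℝ in atTop, 8 * ((Real.log 2 + C) + 1) ≤ g₀ * Real.log T :=
    (hLtop.const_mul_atTop hg0).eventually_ge_atTop _
  have ev2 : ∀ᶠ T : ℝ in atTop, 1 ≤ 1 / 4000000 * Real.log T := (hLtop.const_mul_atTop (by norm_num)).eventually_ge_atTop _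
  have ev3 : ∀ᶠ T : ℝ in atTop, 7 / 8 * pin ≤ ((esF (1 / 1000000)).map fun x => cI (IP x (1 / 100000000) T) / (cI (IP x (1 / 100000000) T) + 8 / x)).prod :=
    hlim.eventually_const_le (by linarith)
  have ev4 : ∀ᶠ T : ℝ in atTop, 3 * T ^ (-κ) ≤ G * θ / 2 := by
    have h1 : Tendsto (fun T : ℝ => 3 * T ^ (-κ)) atTop (𝓝 (3 * 0)) := (tendsto_rpow_neg_atTop hκ).const_mul 3
    rw [mul_zero] at h1
    exact h1.eventually_le_const (by positivity)
  have ev5 : ∀ᶠ T : ℝ in atTop, Real.exp (3 / 2 * Real.log T + R) ≤ T ^ 2 := by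
    filter_upwards [hLtop.eventually_ge_atTop (2 * R), eventually_gt_atTop (0:ℝ)] with T h1 h2
    have h3 : T ^ 2 = Real.exp (2 * Real.log T) := by
      rw [two_mul, Real.exp_add, Real.exp_log h2]
      ring
    rw [h3]
    exact Real.exp_le_exp.2 (by linarith)
  filter_upwards [hopen g hW hR hκ hκ1 hκs, bt_bd hb1 hb2 hEX he0 (by linarith) (ε := κ / 8) (by positivity), Lz_bd (ε := κ / 8) (by positivity),
    k1 he0 he0 (by linarith) hε hW hR, k2 hEX hε hW hR, kb hEX hε hW hR, kc hEX he0 (by linarith) (by linarith) he0 he1 (by linarith) hε hW hR,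
    kd he0 he0 (by linarith) hε hW hR, fL, fb, ev1, ev2, ev3, ev4, ev5, eventually_ge_atTop (3:ℝ), hLtop.eventually_ge_atTop 1]
    with T tO tB tL t1 t2 tb tc td tfL tfb q1 q2 q3 q4 q5 hT3 hL1' c hc1 hc2
  have hT0 : 0 < T := by linarith
  have hL : 0 < Real.log T := by linarith
  have hcA : c ≤ (1 + κ / 4) * Real.log T := hc2.trans (mul_le_mul_of_nonneg_right (by linarith [min_le_left (κ / 4) (1 / 4000000 / 4 : ℝ)]) hL.le)
  have hcB : c ≤ (1 + 1 / 4000000 / 4) * Real.log T := hc2.trans (mul_le_mul_of_nonneg_right (by linarith [min_le_right (κ / 4) (1 / 4000000 / 4 : ℝ)]) hL.le)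
  have hcC : c ≤ 11 / 10 * Real.log T := hcB.trans (mul_le_mul_of_nonneg_right (by norm_num) hL.le)
  have hcD : c ≤ 3 / 2 * Real.log T := hcB.trans (mul_le_mul_of_nonneg_right (by norm_num) hL.le)
  -- opening
  have o1 := tO c hc1 hcA Lz (bt e T) tL tB tfL
  have o2 := tO c hc1 hcA (bt e T) (bt e T) tB tB tfb
  rw [← hG] at o1 o2
  have hLz : (fun n : ℕ => Lz (n : ℤ)) = fun n : ℕ => ArithmeticFunction.vonMangoldt n := by
    funext n
    unfold Lz
    rw [Int.toNat_natCast]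
  rw [hLz] at o1
  have hin := only g hgn hT0 W R c (fun n => ArithmeticFunction.vonMangoldt n) (fun n => bt e T n)
  -- the sums
  have s1 : Sm W R c (fun n => Lz n * bt e T n) = Sm W R c (fun n => ArithmeticFunction.vonMangoldt n * b1 e e T n) +
      lamT T * Sm W R c (fun n => ArithmeticFunction.vonMangoldt n * bF T n) := by
    rw [← Sm_smul, ← Sm_add]
    congr 1
    funext n
    have : Lz (n : ℤ) = ArithmeticFunction.vonMangoldt n := congrFun hLz n
    rw [this]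
    unfold bt
    ring
  have s2 : Sm W R c (fun n => bt e T n * bt e T n) = Sm W R c (fun n => b1 e e T n ^ 2) +
      2 * lamT T * Sm W R c (fun n => b1 e e T n * bF T n) + lamT T ^ 2 * Sm W R c (fun n => bF T n ^ 2) := by
    rw [← Sm_smul, ← Sm_smul, ← Sm_add, ← Sm_add]
    congr 1
    funext n
    unfold bt
    ring
  obtain ⟨l0, l1⟩ := lamT_bd T
  obtain ⟨hP, hQ⟩ := lam_alg T
  have hpr1 : ((esF (1 / 1000000)).map fun x => cI (IP x (1 / 100000000) T) / (cI (IP x (1 / 100000000) T) + 8 / x)).prod ≤ 1 := by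
    refine (prod_bd fun x hx => ?_).2
    have h0 := (esF_mem hx).1
    have h1 := cI_nonneg x (1 / 100000000) T
    have h2 : 0 < 8 / x := by positivity
    refine ⟨by positivity, ?_⟩
    rw [div_le_one (by positivity)]
    linarith
  -- the sums `G`
  have fl : ∀ y : ℝ, 0 < y → 1 ≤ ⌊T ^ y⌋₊ ∧ y * Real.log T - Real.log 2 ≤ Real.log ⌊T ^ y⌋₊ ∧ Real.log ⌊T ^ y⌋₊ ≤ y * Real.log T := by
    intro y hy
    have h1 : 1 ≤ T ^ y := Real.one_le_rpow (by linarith) hy.le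
    have h2 : 1 ≤ ⌊T ^ y⌋₊ := Nat.le_floor (by simpa using h1)
    have h3 : (1:ℝ) ≤ (⌊T ^ y⌋₊ : ℝ) := by exact_mod_cast h2
    have h4 := Nat.lt_floor_add_one (T ^ y)
    have h5 : T ^ y ≤ 2 * (⌊T ^ y⌋₊ : ℝ) := by linarith
    have h6 : Real.log (T ^ y) = y * Real.log T := Real.log_rpow hT0 y
    refine ⟨h2, ?_, ?_⟩
    · have h7 := Real.log_le_log (by linarith) h5
      rw [Real.log_mul (by norm_num) (by linarith), h6] at h7
      linarith
    · rw [← h6]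
      exact Real.log_le_log (by linarith) (Nat.floor_le (by linarith))
  obtain ⟨w1, w2, w3⟩ := fl (1 / 2 - e) (by linarith)
  obtain ⟨x1, x2, x3⟩ := fl e he0
  obtain ⟨y1, y2, y3⟩ := fl (1 / 4000000) (by norm_num)
  have gg1 := (hGGb _ w1).1
  have gg0 := (hGGb _ x1).2
  have ggB := (hGGb _ y1).1
  have hlog2 : Real.log 2 ≤ 1 := by
    have := Real.log_two_lt_d9
    linarith
  have hlog20 : 0 ≤ Real.log 2 := Real.log_nonneg (by norm_num)
  have main := arith (V := V) (L := Real.log T) (G1 := GG 1 ⌊T ^ (1 / 2 - e)⌋₊) (G0 := GG 1 ⌊T ^ e⌋₊) (GB := GG 1 ⌊T ^ (1 / 4000000 : ℝ)⌋₊)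
    (P := ((IL (esF (1 / 1000000)) (1 / 100000000) T).map cI).prod)
    (Q := ((esF (1 / 1000000)).map fun x => cI (IP x (1 / 100000000) T) * (cI (IP x (1 / 100000000) T) + 8 / x)).prod) (lam := lamT T)
    (pr := ((esF (1 / 1000000)).map fun x => cI (IP x (1 / 100000000) T) / (cI (IP x (1 / 100000000) T) + 8 / x)).prod)
    (g := g₀) (pin := pin) (C' := Real.log 2 + C) (C₃ := 1 / 4000000) (ε1 := θ / 16) (θ := θ) (e := e)
    (SL1 := Sm W R c (fun n => ArithmeticFunction.vonMangoldt n * b1 e e T n)) (SL2 := Sm W R c (fun n => ArithmeticFunction.vonMangoldt n * bF T n))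
    (S11 := Sm W R c (fun n => b1 e e T n ^ 2)) (S12 := Sm W R c (fun n => b1 e e T n * bF T n)) (S22 := Sm W R c (fun n => bF T n ^ 2))
    hV0 hL (by rw [hV]; exact t1 c hc1 hcD) (by rw [hV]; exact t2 c hc1 hcD) (by rw [hV]; exact td c hc1) (tc c hc1 hcB) (by rw [hV]; exact tb c hc1 hcC)
    l0 l1 hP hQ (by linarith) (by linarith) q2 q3 hpr1 hp0 hg₀ he rfl hθ q1
  -- conclusion
  have z1 := (abs_le.1 o1).1
  have z2 := (abs_le.1 o2).2
  rw [s1] at z1
  rw [s2] at z2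
  have main2 : T * G * (Real.log T * ((1 / 2 + g₀ / 2) * V - θ / 2)) - 3 * T ^ (1 - κ) ≤
      ∫ t, om g.h T t * ‖SB W R c (fun n => ArithmeticFunction.vonMangoldt n) t‖ ^ 2 := by
    have h1 := mul_le_mul_of_nonneg_left main (by positivity : (0:ℝ) ≤ T * G)
    have e2 : T * G * (2 * (Sm W R c (fun n => ArithmeticFunction.vonMangoldt n * b1 e e T n) +
        lamT T * Sm W R c (fun n => ArithmeticFunction.vonMangoldt n * bF T n)) -
        (Sm W R c (fun n => b1 e e T n ^ 2) + 2 * lamT T * Sm W R c (fun n => b1 e e T n * bF T n) +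
          lamT T ^ 2 * Sm W R c (fun n => bF T n ^ 2))) =
        2 * (T * G * (Sm W R c (fun n => ArithmeticFunction.vonMangoldt n * b1 e e T n) + lamT T * Sm W R c (fun n => ArithmeticFunction.vonMangoldt n * bF T n))) -
        T * G * (Sm W R c (fun n => b1 e e T n ^ 2) + 2 * lamT T * Sm W R c (fun n => b1 e e T n * bF T n) + lamT T ^ 2 * Sm W R c (fun n => bF T n ^ 2)) := by
      ring
    rw [e2] at h1
    linarith
  have hAA : ∀ t : ℝ, ‖SB W R c (fun n => ArithmeticFunction.vonMangoldt n) t‖ ^ 2 = Real.log T * ‖AA (sw W c T) T t‖ ^ 2 := by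
    intro t
    rw [← AA_SB hW hL ((Real.exp_le_exp.2 (by linarith)).trans q5) t, norm_mul, mul_pow, Complex.norm_real, Real.norm_of_nonneg (Real.sqrt_nonneg _),
      Real.sq_sqrt hL.le]
  have hint : (∫ t, om g.h T t * ‖SB W R c (fun n => ArithmeticFunction.vonMangoldt n) t‖ ^ 2) =
      Real.log T * ∫ t, om g.h T t * ‖AA (sw W c T) T t‖ ^ 2 := by
    rw [← integral_const_mul]
    refine integral_congr_ae (Eventually.of_forall fun t => ?_)
    show om g.h T t * ‖SB W R c (fun n => ArithmeticFunction.vonMangoldt n) t‖ ^ 2 = Real.log T * (om g.h T t * ‖AA (sw W c T) T t‖ ^ 2)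
    rw [hAA]
    ring
  rw [hint] at main2
  rw [le_div_iff₀ hT0]
  have hTκ : T ^ (1 - κ) = T * T ^ (-κ) := by
    rw [sub_eq_add_neg, Real.rpow_add hT0, Real.rpow_one]
  rw [hTκ] at main2
  have h9 : T * (3 * T ^ (-κ)) ≤ T * (G * θ / 2) := mul_le_mul_of_nonneg_left q4 hT0.le
  have h10 : T * (G * θ / 2) ≤ Real.log T * (T * (G * θ / 2)) := le_mul_of_one_le_left (by positivity) hL1'
  have h11 : Real.log T * (G * ((1 / 2 + g₀ / 2) * V - θ) * T) ≤ Real.log T * ∫ t, om g.h T t * ‖AA (sw W c T) T t‖ ^ 2 := by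
    refine le_trans ?_ main2
    have e3 : T * G * (Real.log T * ((1 / 2 + g₀ / 2) * V - θ / 2)) - 3 * (T * T ^ (-κ)) =
        Real.log T * (G * ((1 / 2 + g₀ / 2) * V - θ) * T) + (Real.log T * (T * (G * θ / 2)) - T * (3 * T ^ (-κ))) := by ring
    rw [e3]
    linarith
  exact le_of_mul_le_mul_left h11 hL

end Pool.Agent.AP
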