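import Pool.Agent.Helper97.AP.Tile

/-!
# Project A' (MP_8958e8): from the bound `PL` on one piece to the form factor, all `α ≥ 1`

One tile `[δT, (1-δ)T]`, seen from `T`, so that everything holds for `c ≥ log T`; the last part is a copy of Helper97/AP/Tile.
-/

open MeasureTheory Set Filter Topology
open Pool.Agent.Helper57.Zeta Pool.Agent.Helper57.PC Pool.Agent.Helper57.LH Pool.Agent.Helper78.SG
open Pool.Agent.Helper4.SH (om)
open Pool.Agent.Helper69.FF Pool.Agent.Helper57.KP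
open scoped ContDiff

set_option autoImplicit false

namespace Pool.Agent.AP.Tile0

open Pool.Agent.AP.Tile (PL.mono)

private theorem t0_bump {η w : ℝ} (hη : 0 < η) (hη1 : η < 1 / 2) (hw : 0 < w) (hw1 : w < 1) :
    ∃ g : TF, (∀ x, 0 ≤ g.h x) ∧ (∀ x, g.h x ≤ 1) ∧ 2 * η * (1 - w) ≤ ∫ x, g.h x ∧ g.th = η := by
  let f : ContDiffBump (0 : ℝ) :=
    { rIn := η * (1 - w)
      rOut := η
      rIn_pos := mul_pos hη (by linarith)
      rIn_lt_rOut := by nlinarith }
  let g : TF :=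
    { h := fun x => f x
      th := η
      smooth := f.contDiff
      even := fun x => f.neg x
      th0 := hη
      th1 := hη1
      supp := fun x hx => f.zero_of_le_dist (by
        rw [Real.dist_eq, sub_zero]
        exact hx) }
  refine ⟨g, fun x => f.nonneg, fun x => f.le_one, ?_, rfl⟩
  have h1 := f.measure_closedBall_le_integral volume
  have h2 : volume.real (Metric.closedBall (0 : ℝ) f.rIn) = 2 * η * (1 - w) := by
    rw [Measure.real, Real.volume_closedBall, ENNReal.toReal_ofReal]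
    · show 2 * (η * (1 - w)) = 2 * η * (1 - w)
      ring
    · show 0 ≤ 2 * (η * (1 - w))
      have : 0 < 1 - w := by linarith
      positivity
  rw [h2] at h1
  exact h1

private theorem t0_cont (w : ℝ → ℝ) (T : ℝ) : Continuous (fun t : ℝ => AA w T t) := by
  unfold AA
  refine continuous_finsetSum _ fun n _ => continuous_const.mul ?_
  unfold xp
  fun_prop

private theorem t0_om (g : TF) {T t : ℝ} (hT : 0 < T) (h : om g.h T t ≠ 0) :
    T * (1 / 2 - g.th) < t ∧ t < T * (1 / 2 + g.th) := by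
  unfold Pool.Agent.Helper4.SH.om at h
  have h1 : |t / T - 1 / 2| < g.th := by
    by_contra h2
    rw [not_lt] at h2
    exact h (g.supp _ h2)
  rw [abs_lt] at h1
  have h3 : t = T * (t / T) := by field_simp
  constructor
  · rw [h3]
    exact mul_lt_mul_of_pos_left (by linarith [h1.1]) hT
  · rw [h3]
    exact mul_lt_mul_of_pos_left (by linarith [h1.2]) hT


/-- one tile -/
private theorem t0_tile (g : TF) (hg1 : ∀ x, g.h x ≤ 1) {δ T : ℝ} (hT : 0 < T)
    (hδ : g.th = 1 / 2 - δ) {F : ℝ → ℝ} (hF : Continuous F) (hF0 : ∀ t, 0 ≤ F t) :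
    ∫ t, om g.h T t * F t ≤ ∫ t in (δ * T)..((1 - δ) * T), F t := by
  have hth := g.th0
  have hle : δ * T ≤ (1 - δ) * T := by nlinarith
  have hcont : Continuous (fun t : ℝ => om g.h T t) := by
    unfold Pool.Agent.Helper4.SH.om
    have := g.smooth.continuous
    fun_prop
  have hout : ∀ t, t ∉ Icc (δ * T) ((1 - δ) * T) → om g.h T t = 0 := by
    intro t ht
    by_contra h
    have h1 := t0_om g hT h
    rw [hδ] at h1
    refine ht ⟨?_, ?_⟩
    · nlinarith [h1.1]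
    · nlinarith [h1.2]
  have hint : Integrable (fun t => om g.h T t * F t) := by
    refine Continuous.integrable_of_hasCompactSupport (hcont.mul hF) ?_
    refine HasCompactSupport.intro (isCompact_Icc (a := δ * T) (b := (1 - δ) * T)) ?_
    intro t ht
    show om g.h T t * F t = 0
    rw [hout t ht, zero_mul]
  rw [intervalIntegral.integral_of_le hle, ← integral_Icc_eq_integral_Ioc, ← integral_indicator measurableSet_Icc]
  refine integral_mono hint ((hF.continuousOn.integrableOn_Icc).integrable_indicator measurableSet_Icc) ?_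
  intro t
  show om g.h T t * F t ≤ (Icc (δ * T) ((1 - δ) * T)).indicator F t
  by_cases h : t ∈ Icc (δ * T) ((1 - δ) * T)
  · rw [indicator_of_mem h]
    have h1 : om g.h T t ≤ 1 := hg1 _
    exact mul_le_of_le_one_left (hF0 t) h1
  · rw [indicator_of_notMem h, hout t h, zero_mul]

theorem primes0 {c₀ γ : ℝ} (hPL : PL c₀ γ) (hγ : 0 ≤ γ) (hγ1 : γ ≤ 1 / 2)
    {W : ℝ → ℝ} {R : ℝ} (hW : PF W R) (hR : 0 < R) {ε : ℝ} (hε : 0 < ε) : ∃ δ : ℝ, 0 < δ ∧ δ < 1 / 2 ∧
    ∀ᶠ T : ℝ in atTop, ∀ c : ℝ, Real.log T ≤ c → c ≤ (1 + c₀) * Real.log T →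
    (1 / 2 + γ) * (∫ y, W y ^ 2) - ε ≤ (1 / T) * ∫ t in (δ * T)..((1 - δ) * T), ‖AA (sw W c T) T t‖ ^ 2 := by
  have hI2 : ∫ y, W y ^ 2 ≤ 2 * R := by
    have hz : ∀ y, y ∉ Icc (-R) R → W y = 0 := fun y hy => by
      by_contra h
      exact hy (abs_le.mp (hW.supp y h))
    have hone : ∫ y in Icc (-R) R, (1:ℝ) = 2 * R := by
      rw [setIntegral_const, measureReal_def, Real.volume_Icc, ENNReal.toReal_ofReal (by linarith), smul_eq_mul]
      ring
    rw [← setIntegral_eq_integral_of_forall_compl_eq_zero (s := Icc (-R) R) (fun y hy => by rw [hz y hy]; norm_num), ← hone]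
    refine setIntegral_mono_on ((hW.smooth.continuous.pow 2).integrableOn_Icc) (integrableOn_const (by simp)) measurableSet_Icc fun y _ => ?_
    have := hW.le_one y
    have := hW.nonneg y
    nlinarith
  have hI0 : 0 ≤ ∫ y, W y ^ 2 := integral_nonneg fun y => sq_nonneg _
  set w : ℝ := min (ε / (12 * R + 1)) (1 / 10) with hwdef
  have hw : 0 < w := by positivity
  have hw1 : w ≤ 1 / 10 := min_le_right _ _
  have hwε : w * (12 * R + 1) ≤ ε := by
    calc w * (12 * R + 1) ≤ ε / (12 * R + 1) * (12 * R + 1) := by gcongr; exact min_le_left _ _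
      _ = ε := by field_simp
  obtain ⟨g, hg0, hg1, hgI, hgth⟩ := t0_bump (η := 1 / 2 - w) (w := w) (by linarith) (by linarith) hw (by linarith)
  have hgI0 : 0 < ∫ x, g.h x := lt_of_lt_of_le (mul_pos (by linarith) (by linarith)) hgI
  refine ⟨w, hw, by linarith, ?_⟩
  filter_upwards [hPL g hg0 hgI0 W R hW hR w hw, eventually_gt_atTop 1] with T hT hT1 c hc1 hc2
  have hT0 : 0 < T := by linarith
  have hFc : Continuous (fun t => ‖AA (sw W c T) T t‖ ^ 2) := (t0_cont (sw W c T) T).norm.pow 2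
  have htile := t0_tile g hg1 hT0 hgth hFc (fun t => sq_nonneg _)
  have h1 := hT c hc1 hc2
  set P := (1 / 2 + γ) * (∫ y, W y ^ 2) - w with hP
  have hfin : (∫ x, g.h x) * P ≤ (1 / T) * ∫ t in (w * T)..((1 - w) * T), ‖AA (sw W c T) T t‖ ^ 2 := by
    refine h1.trans ?_
    rw [one_div, inv_mul_eq_div]
    exact div_le_div_of_nonneg_right htile hT0.le
  have hX : 0 ≤ (1 / T) * ∫ t in (w * T)..((1 - w) * T), ‖AA (sw W c T) T t‖ ^ 2 := by
    refine mul_nonneg (by positivity) (intervalIntegral.integral_nonneg (by nlinarith) fun t _ => sq_nonneg _)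
  have hPR : P ≤ 2 * R := by
    have a1 : (1 / 2 + γ) * (∫ y, W y ^ 2) ≤ 1 * (∫ y, W y ^ 2) := mul_le_mul_of_nonneg_right (by linarith) hI0
    linarith
  have a3 : 1 - 4 * w ≤ ∫ x, g.h x := by
    refine le_trans ?_ hgI
    nlinarith
  rcases le_or_gt P 0 with hn | hn
  · have : (1 / 2 + γ) * (∫ y, W y ^ 2) - ε ≤ 0 := by
      have : w ≤ ε := by nlinarith
      linarith
    linarith
  · have a4 : (1 - 4 * w) * P ≤ (∫ x, g.h x) * P := mul_le_mul_of_nonneg_right a3 hn.le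
    have a7 : 4 * w * P ≤ 4 * w * (2 * R) := mul_le_mul_of_nonneg_left hPR (by positivity)
    nlinarith

open Pool.Agent.Helper93.LP (PP GG) in
private theorem t0z_PP_AA {w : ℝ → ℝ} {a b : ℝ} (hw : WR w a b) (hb : b < 2) {T : ℝ} (hT : 1 < T) (t : ℝ) :
    PP T (fun x => (w x : ℂ)) t = AA w T t := by
  have hT0 : 0 < T := by linarith
  have hL : 0 < Real.log T := Real.log_pos hT
  have h1 := Pool.Agent.Helper93.LP.MVs.PP_eq hw (β := 2) hb hT t
  have hN : NX ((2 : ℝ) * Real.log T) = ⌊T ^ 2⌋₊ := by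
    unfold NX
    congr 1
    have e : (2 : ℝ) * Real.log T = ((2 : ℕ) : ℝ) * Real.log T := by norm_num
    rw [e, Real.exp_nat_mul, Real.exp_log hT0]
  rw [h1, hN]
  unfold AA
  have hsub : Finset.Icc 1 ⌊T ^ 2⌋₊ ⊆ Finset.range (⌊T ^ 2⌋₊ + 1) := by
    intro n hn
    rw [Finset.mem_Icc] at hn
    rw [Finset.mem_range]
    omega
  rw [Complex.ofReal_sum, Complex.ofReal_sum, Finset.sum_mul, ← Finset.sum_sub_distrib]
  symm
  rw [← Finset.sum_subset hsub (f := fun n => ((Pool.Agent.Helper93.LP.MVs.cc w (Real.log T) n * Real.cos (Real.log n * t) : ℝ) : ℂ) -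
      ((Pool.Agent.Helper93.LP.MVs.cc w (Real.log T) n * Real.sin (Real.log n * t) : ℝ) : ℂ) * Complex.I)]
  · refine Finset.sum_congr rfl fun n hn => ?_
    rw [Finset.mem_Icc] at hn
    have hn0 : (0 : ℝ) < n := by exact_mod_cast hn.1
    have hs : Real.sqrt n ≠ 0 := (Real.sqrt_pos.mpr hn0).ne'
    unfold Pool.Agent.Helper93.LP.MVs.cc xp
    have h2 : -(((t * Real.log n : ℝ) : ℂ) * Complex.I) = ((-(Real.log n * t) : ℝ) : ℂ) * Complex.I := by
      push_cast; ring
    rw [h2, Complex.exp_mul_I, ← Complex.ofReal_cos, ← Complex.ofReal_sin, Real.cos_neg, Real.sin_neg]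
    have h3 : ArithmeticFunction.vonMangoldt n * w (Real.log n / Real.log T) / (Real.log T * Real.sqrt n) =
        ArithmeticFunction.vonMangoldt n / Real.sqrt n * w (Real.log n / Real.log T) / Real.log T := by
      field_simp
    rw [h3]
    push_cast
    ring
  · intro n hn hn'
    rw [Finset.mem_range] at hn
    rw [Finset.mem_Icc] at hn'
    have : n = 0 := by omega
    subst this
    rw [Pool.Agent.Helper93.LP.MVs.cc_zero]
    simp

private theorem t0z_AA_cont (w : ℝ → ℝ) (T : ℝ) : Continuous (fun t : ℝ => AA w T t) := by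
  unfold AA
  refine continuous_finsetSum _ fun n _ => continuous_const.mul ?_
  unfold xp
  fun_prop

private theorem t0z_W_int {W : ℝ → ℝ} {R : ℝ} (hW : PF W R) : 0 ≤ ∫ y, W y ^ 2 :=
  integral_nonneg fun y => sq_nonneg _

private theorem t0z_sw_WR {W : ℝ → ℝ} {R : ℝ} (hW : PF W R) (hR : 0 < R) {c T : ℝ} (hL : 0 < Real.log T) (hc : R < c) :
    WR (sw W c T) ((c - R) / Real.log T) ((c + R) / Real.log T) := by
  refine ⟨?_, by have : 0 < c - R := by linarith
                 positivity, by gcongr; linarith, ?_⟩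
  · unfold sw
    exact contDiff_const.mul (hW.smooth.comp ((contDiff_const.mul contDiff_id).sub contDiff_const))
  · intro x hx
    have h1 : W (Real.log T * x - c) ≠ 0 := by
      intro h
      apply hx
      unfold sw
      rw [h, mul_zero]
    have h2 := abs_le.mp (hW.supp _ h1)
    constructor
    · rw [div_le_iff₀ hL]
      nlinarith [h2.1]
    · rw [le_div_iff₀ hL]
      nlinarith [h2.2]

open Pool.Agent.Helper57.FL (ff) in
private theorem t0z_subst (W : ℝ → ℝ) (c T : ℝ) (hL : 0 < Real.log T) :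
    ∫ x : ℝ, sw W c T x ^ 2 * ff T x = ∫ y : ℝ, W y ^ 2 * ff T ((y + c) / Real.log T) := by
  obtain ⟨F, hF⟩ : ∃ F : ℝ → ℝ, F = fun y => W y ^ 2 * ff T ((y + c) / Real.log T) := ⟨_, rfl⟩
  have e1 : (fun x : ℝ => sw W c T x ^ 2 * ff T x) = fun x => Real.log T * (fun z => F (z - c)) (Real.log T * x) := by
    funext x
    rw [hF]
    show (Real.sqrt (Real.log T) * W (Real.log T * x - c)) ^ 2 * ff T x =
      Real.log T * (W (Real.log T * x - c) ^ 2 * ff T ((Real.log T * x - c + c) / Real.log T))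
    rw [mul_pow, Real.sq_sqrt hL.le]
    have e2 : (Real.log T * x - c + c) / Real.log T = x := by
      field_simp
      ring
    rw [e2]
    ring
  have e3 : (fun y : ℝ => W y ^ 2 * ff T ((y + c) / Real.log T)) = F := by rw [hF]
  rw [e1, e3, integral_const_mul, MeasureTheory.Measure.integral_comp_mul_left (fun z => F (z - c)), integral_sub_right_eq_self F c,
    smul_eq_mul, abs_of_pos (inv_pos.mpr hL)]
  field_simp

open Pool.Agent.Helper57.FL (ff) in
theorem zeros0 {c₀ γ : ℝ} (hPL : PL c₀ γ) (hc0 : 0 < c₀) (hc1 : c₀ ≤ 1 / 4) (hγ : 0 ≤ γ) (hγ1 : γ ≤ 1 / 2)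
    {W : ℝ → ℝ} {R : ℝ} (hW : PF W R) (hR : 0 < R) {ε : ℝ} (hε : 0 < ε) :
    ∀ᶠ T : ℝ in atTop, ∀ c : ℝ, Real.log T ≤ c → c ≤ (1 + c₀) * Real.log T →
    (1 / 2 + γ) * (∫ y, W y ^ 2) - ε ≤ ∫ y, W y ^ 2 * ff T ((y + c) / Real.log T) := by
  obtain ⟨V, hV⟩ : ∃ V : ℝ, V = ∫ y, W y ^ 2 := ⟨_, rfl⟩
  have hV0 : 0 ≤ V := by rw [hV]; exact t0z_W_int hW
  rw [← hV]
  obtain ⟨δ, hδ, hδ2, hpr⟩ := primes0 hPL hγ hγ1 hW hR (ε := ε / 4) (by linarith)
  rw [← hV] at hpr
  obtain ⟨k, hkd⟩ : ∃ k : ℝ, k = ε / (4 * (V + 1)) := ⟨_, rfl⟩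
  have hk : 0 < k := by rw [hkd]; positivity
  have hkV : k * (V + 1) = ε / 4 := by
    rw [hkd]
    field_simp
  obtain ⟨η, hηd⟩ : ∃ η : ℝ, η = Real.sqrt (ε / 4 / (1 + 1 / k)) := ⟨_, rfl⟩
  have hη : 0 < η := by rw [hηd]; positivity
  have hη2 : (1 + 1 / k) * η ^ 2 = ε / 4 := by
    rw [hηd, Real.sq_sqrt (by positivity)]
    field_simp
  have hef := ef_s hW hR (κ := 1) (by norm_num) hδ hδ2 hη
  have hlog : Tendsto Real.log atTop atTop := Real.tendsto_log_atTop
  filter_upwards [hpr, hef, eventually_ge_atTop (3 : ℝ), hlog.eventually_gt_atTop (R + 2 * R + 1)] with T hT hE hT3 hLR c hc1v hc2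
  have hT1 : 1 < T := by linarith
  have hT0 : 0 < T := by linarith
  have hL : 0 < Real.log T := Real.log_pos hT1
  have hcL : Real.log T ≤ c := hc1v
  have hcR : R < c := by linarith
  have hc3 : c ≤ 3 / 2 * Real.log T := by nlinarith
  have hWR := t0z_sw_WR hW hR (T := T) hL hcR
  have hSW : Pool.Agent.Helper57.FL.SW (sw W c T) ((c - R) / Real.log T) ((c + R) / Real.log T) := hWR
  have hb2 : (c + R) / Real.log T < 2 := by
    rw [div_lt_iff₀ hL]
    linarith
  have hWC := Pool.Agent.Helper93.LP.WR.toWC hWR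
  have hAc := t0z_AA_cont (sw W c T) T
  have hGc : Continuous (Pool.Agent.Helper93.LP.GG T (fun x => ((sw W c T x : ℝ) : ℂ))) := Pool.Agent.Helper93.LP.GG_cont hWC T
  have hGc2 : Continuous (fun t => ‖Pool.Agent.Helper93.LP.GG T (fun x => ((sw W c T x : ℝ) : ℂ)) t‖ ^ 2) := hGc.norm.pow 2
  obtain ⟨p1, p2⟩ := Pool.Agent.Helper57.FL.ff_planch hSW hT3
  rw [t0z_subst W c T hL] at p2
  rw [← p2]
  have hle : δ * T ≤ (1 - δ) * T := by nlinarith
  -- pointwise
  have h1 : (∫ t in (δ * T)..((1 - δ) * T), ‖AA (sw W c T) T t‖ ^ 2) ≤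
      ∫ t in (δ * T)..((1 - δ) * T), ((1 + k) * ‖Pool.Agent.Helper93.LP.GG T (fun x => ((sw W c T x : ℝ) : ℂ)) t‖ ^ 2 + (1 + 1 / k) * η ^ 2) := by
    refine intervalIntegral.integral_mono_on hle ?_ ?_ ?_
    · exact (hAc.norm.pow 2).intervalIntegrable _ _
    · exact ((continuous_const.mul hGc2).add continuous_const).intervalIntegrable _ _
    · intro t ht
      have h2 := hE c (by rw [one_mul]; exact hcL) hc3 t ht.1 ht.2
      rw [t0z_PP_AA hWR hb2 hT1] at h2
      obtain ⟨x, hx⟩ : ∃ x : ℝ, x = ‖Pool.Agent.Helper93.LP.GG T (fun x => ((sw W c T x : ℝ) : ℂ)) t‖ := ⟨_, rfl⟩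
      have h3 : ‖AA (sw W c T) T t‖ ≤ x + η := by
        have h4 : AA (sw W c T) T t = (AA (sw W c T) T t + Pool.Agent.Helper93.LP.GG T (fun x => ((sw W c T x : ℝ) : ℂ)) t) -
            Pool.Agent.Helper93.LP.GG T (fun x => ((sw W c T x : ℝ) : ℂ)) t := by ring
        rw [h4, hx]
        refine (norm_sub_le _ _).trans ?_
        linarith
      rw [← hx]
      have h5 : ‖AA (sw W c T) T t‖ ^ 2 ≤ (x + η) ^ 2 := pow_le_pow_left₀ (norm_nonneg _) h3 2
      refine h5.trans ?_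
      have h6 : 0 ≤ k * (x - η / k) ^ 2 := by positivity
      have h7 : k * (x - η / k) ^ 2 = k * x ^ 2 - 2 * x * η + 1 / k * η ^ 2 := by
        field_simp
        ring
      nlinarith
  have h9 : (∫ t in (δ * T)..((1 - δ) * T), ((1 + k) * ‖Pool.Agent.Helper93.LP.GG T (fun x => ((sw W c T x : ℝ) : ℂ)) t‖ ^ 2 + (1 + 1 / k) * η ^ 2)) =
      (1 + k) * (∫ t in (δ * T)..((1 - δ) * T), ‖Pool.Agent.Helper93.LP.GG T (fun x => ((sw W c T x : ℝ) : ℂ)) t‖ ^ 2) +
        ((1 - δ) * T - δ * T) * (ε / 4) := by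
    have c1 : Continuous (fun t => (1 + k) * ‖Pool.Agent.Helper93.LP.GG T (fun x => ((sw W c T x : ℝ) : ℂ)) t‖ ^ 2) := continuous_const.mul hGc2
    rw [intervalIntegral.integral_add (c1.intervalIntegrable _ _)
      (continuous_const.intervalIntegrable _ _), intervalIntegral.integral_const_mul, intervalIntegral.integral_const,
      hη2, smul_eq_mul]
  have h10 : (∫ t in (δ * T)..((1 - δ) * T), ‖Pool.Agent.Helper93.LP.GG T (fun x => ((sw W c T x : ℝ) : ℂ)) t‖ ^ 2) ≤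
      ∫ t : ℝ, ‖Pool.Agent.Helper93.LP.GG T (fun x => ((sw W c T x : ℝ) : ℂ)) t‖ ^ 2 := by
    rw [intervalIntegral.integral_of_le hle]
    exact setIntegral_le_integral p1 (Filter.Eventually.of_forall fun t => by positivity)
  obtain ⟨I, hI⟩ : ∃ I : ℝ, I = ∫ t : ℝ, ‖Pool.Agent.Helper93.LP.GG T (fun x => ((sw W c T x : ℝ) : ℂ)) t‖ ^ 2 := ⟨_, rfl⟩
  have hI0 : 0 ≤ I := by
    rw [hI]
    exact integral_nonneg fun t => by positivity
  rw [← hI] at h10 ⊢
  obtain ⟨X, hX⟩ : ∃ X : ℝ, X = (1 / T) * I := ⟨_, rfl⟩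
  have hX0 : 0 ≤ X := by rw [hX]; positivity
  rw [← hX]
  obtain ⟨U, hU⟩ : ∃ U : ℝ, U = (1 / 2 + γ) * V := ⟨_, rfl⟩
  have hTc := hT c hc1v hc2
  rw [← hU] at hTc ⊢
  have hUV : U ≤ V := by
    rw [hU]
    nlinarith
  have h12 : U - ε / 4 ≤ (1 + k) * X + ε / 4 := by
    refine hTc.trans ?_
    have h13 : (1 / T) * (∫ t in (δ * T)..((1 - δ) * T), ‖AA (sw W c T) T t‖ ^ 2) ≤
        (1 / T) * ((1 + k) * I + T * (ε / 4)) := by
      refine mul_le_mul_of_nonneg_left ?_ (by positivity)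
      refine h1.trans ?_
      rw [h9]
      have h14 : ((1 - δ) * T - δ * T) * (ε / 4) ≤ T * (ε / 4) := by
        refine mul_le_mul_of_nonneg_right ?_ (by linarith)
        nlinarith
      have h15 := mul_le_mul_of_nonneg_left h10 (by linarith : (0:ℝ) ≤ 1 + k)
      linarith
    refine h13.trans (le_of_eq ?_)
    rw [hX]
    field_simp
  by_cases hneg : U - ε ≤ 0
  · linarith
  · push Not at hneg
    have h11 : k * (U - ε) ≤ ε / 4 := by
      rw [← hkV]
      refine mul_le_mul_of_nonneg_left ?_ hk.le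
      linarith
    have h16 : (1 + k) * (U - ε) ≤ (1 + k) * X := by nlinarith
    exact le_of_mul_le_mul_left h16 (by linarith)


/-- for all `1 ≤ α ≤ 1 + c` -/
theorem pointwise0 {c₀ γ : ℝ} (hPL : PL c₀ γ) (hc0 : 0 < c₀) (hγ : 0 < γ) : ∃ c : ℝ, 0 < c ∧
    ∀ᶠ T : ℝ in atTop, ∀ α : ℝ, 1 ≤ α → α ≤ 1 + c → (bg T α).im = 0 ∧ 1 / 2 + c ≤ (bg T α).re := by
  set c₁ : ℝ := min c₀ (1 / 4) with hc1
  set γ₁ : ℝ := min γ (1 / 2) with hγ1
  have hc1p : 0 < c₁ := by positivity
  have hγ1p : 0 < γ₁ := by positivity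
  have hc14 : c₁ ≤ 1 / 4 := min_le_right _ _
  have hγ12 : γ₁ ≤ 1 / 2 := min_le_right _ _
  have hPL1 : PL c₁ γ₁ := PL.mono hPL (min_le_left _ _) (min_le_left _ _)
  refine ⟨min (c₁ / 2) (γ₁ / 2), by positivity, ?_⟩
  obtain ⟨W, R, hR, hW, hW2, hWI⟩ := profile (ε := γ₁ / 4) (by positivity)
  filter_upwards [zeros0 hPL1 hc1p hc14 hγ1p.le hγ12 hW hR (ε := γ₁ / 4) (by positivity),
    eventually_ge_atTop (3:ℝ)] with T hT hT3 α hα1 hα2
  obtain ⟨hi, he⟩ := bg_eq hT3 α
  have hL : 0 < Real.log T := Real.log_pos (by linarith)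
  have hff : ∀ x, 0 ≤ Pool.Agent.Helper57.FL.ff T x := fun x => Pool.Agent.Helper57.FL.ff_nonneg (by linarith) x
  rw [he]
  refine ⟨Complex.ofReal_im _, ?_⟩
  rw [Complex.ofReal_re]
  have hα3 : α ≤ 1 + c₁ / 2 := hα2.trans (by linarith [min_le_left (c₁ / 2) (γ₁ / 2)])
  have h1 := hT (α * Real.log T) (by nlinarith) (by nlinarith)
  have h2 : ∀ y : ℝ, (y + α * Real.log T) / Real.log T = α + y / Real.log T := by
    intro y
    field_simp
    ring
  simp only [h2] at h1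
  have h4 : ∫ y, W y ^ 2 * Pool.Agent.Helper57.FL.ff T (α + y / Real.log T) ≤
      ∫ y, Real.exp (-2 * |y|) * Pool.Agent.Helper57.FL.ff T (α + y / Real.log T) := by
    refine integral_mono_of_nonneg (Eventually.of_forall fun y => mul_nonneg (sq_nonneg _) (hff _)) hi (Eventually.of_forall fun y => ?_)
    exact mul_le_mul_of_nonneg_right (hW2 y) (hff _)
  have h5 : (1 / 2 + γ₁) * (1 - γ₁ / 4) ≤ (1 / 2 + γ₁) * ∫ y, W y ^ 2 := mul_le_mul_of_nonneg_left hWI (by linarith)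
  have h6 : min (c₁ / 2) (γ₁ / 2) ≤ γ₁ / 2 := min_le_right _ _
  nlinarith

end Pool.Agent.AP.Tile0
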