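import Pool.Agent.Helper56.AP.Fin
import Pool.Agent.Helper56.AP.PUF
import Pool.Agent.Helper11.AP.K0aF
import Pool.Agent.Helper8.AP.K0c
import Pool.Agent.Helper34.AP.SM
import Pool.Agent.Helper96.AP.F0
import Pool.Agent.Helper95.AP.OPN
import Pool.Agent.Helper69.AP.Lnk
import Pool.Agent.Helper82.AP.BPS
import Pool.Agent.Helper4.AP.Box
import Pool.Agent.Helper19.AP.USf
import Pool.Agent.Helper17.AP.UT
import Pool.Agent.Helper3.AP.BLS1
import Pool.Agent.Helper49.AP.FS12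
import Pool.Agent.Helper26.AP.FS22
import Pool.Agent.Helper25.AP.Lb1
import Pool.Agent.Helper25.AP.Lb2
import Pool.Agent.Helper62.AP.UH
import Pool.Agent.Helper62.AP.SC
import Pool.Agent.Helper88.AP.K3

/-!
# Project A' (MP_8958e8): all blocks together
-/

set_option autoImplicit false

namespace Pool.Agent.AP

theorem st_lamR_eq : Stmt_lamR_eq := lamR_eq
theorem st_Sm_of_sum : Stmt_Sm_of_sum := @Sm_of_sum
theorem st_Sm_dvd : Stmt_Sm_dvd := @Sm_dvd
theorem st_Sm_Lam : Stmt_Sm_Lam := @Sm_Lam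
theorem st_Sm_pp : Stmt_Sm_pp := @Sm_pp
theorem st_corr : Stmt_corr := @corr
theorem st_sig_phi : Stmt_sig_phi := sig_phi
theorem st_TI1 : Stmt_TI1 := @TI1
theorem st_FS_b1b1 : Stmt_FS_b1b1 := @FS_b1b1
theorem st_K0d : Stmt_K0d := @K0d
theorem st_openB : Stmt_openB := @openB
theorem st_EXF : Stmt_EXF := EXF
theorem st_PU_split : Stmt_PU_split := @PU_split
theorem st_PU_mem : Stmt_PU_mem := PU_mem
theorem st_UU_bd : Stmt_UU_bd := @UU_bd
theorem st_UU_zero : Stmt_UU_zero := UU_zero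
theorem st_box : Stmt_box := box
theorem st_link : Stmt_link := Pool.Agent.Helper69.AP.link st_lamR_eq
theorem st_telescope : Stmt_telescope := Pool.Agent.Helper69.AP.telescope st_lamR_eq
theorem st_BLS1 : Stmt_BLS1 := Pool.Agent.Helper3.AP.BLS1
theorem st_US : Stmt_US := US
theorem st_UT : Stmt_UT := Pool.Agent.Helper17.AP.UT st_PU_mem
theorem st_K0b : Stmt_K0b := @K0b st_Sm_of_sum st_Sm_dvd st_corr st_sig_phi
theorem st_K0c : Stmt_K0c := @K0c st_Sm_of_sum st_Sm_dvd st_Sm_Lam st_Sm_pp st_corr st_sig_phi GG_bd lamR_bd cI_lim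
theorem st_BS : Stmt_BS := BS_of st_link xi_bd st_US
theorem st_BT : Stmt_BT := BT_of st_link xi_bd st_UT

theorem st_UH : Stmt_UH := Pool.Agent.Helper62.UH.stmt_UH_of (Pool.Agent.Helper62.AP.stmt_SC Pool.Agent.Helper88.AP.stmt_K3)
theorem st_BH : Stmt_BH := BH_of st_link xi_bd st_UH
theorem st_FS_Lb1 : Stmt_FS_Lb1 := FS_Lb1_of st_BLS1 st_TI1 b1_bd
theorem st_FS_b1b2 : Stmt_FS_b1b2 := FS_b1b2_of st_lamR_eq xi_bd st_BT st_BH

/-- everything from block UP -/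
theorem FIN_of (hUP : Stmt_UP) : Stmt_FIN := by
  have hBP : Stmt_BP := BP_of st_link xi_bd hUP
  exact FIN st_openB b1_bd b2_bd GG_bd cI_lim st_EXF K0a1 K0a2 st_K0b st_K0c st_K0d st_FS_Lb1
    (FS_Lb2_of hBP st_BS st_BT st_BH b2_bd st_EXF) st_FS_b1b1 st_FS_b1b2
    (FS_b2b2_of st_lamR_eq xi_bd lamR_bd st_telescope st_box hBP st_BT)

end Pool.Agent.AP
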