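import Pool.Agent.Helper56.AP.Top
import Pool.Agent.Helper72.AP.UP

/-!
# Project A' (MP_8958e8): the lower bound on one piece, without hypotheses
-/

set_option autoImplicit false

namespace Pool.Agent.AP

theorem stFIN : Stmt_FIN := FIN_of Pool.Agent.Helper72.APU.stmt_UP

end Pool.Agent.AP
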